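import Pool.Agent.W353.TP.CS

/-! The correlation of a bounded function of mean square one with a bounded function. -/

set_option autoImplicit false

namespace Pool.Agent.Y684.L2

open Complex Filter Topology Asymptotics
open Pool.Agent.H341R2 (NormSys)
open Pool.Agent.W353.TP (LL LL_tendsto abs_E_le E_mono)

/-- the penalty -/
noncomputable def pen (lm w : ℝ) : ℝ := (max (|w| - 2 * lm) 0) ^ 2

theorem pen_nonneg (lm w : ℝ) : 0 ≤ pen lm w := sq_nonneg _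

theorem pen_le {lm w B : ℝ} (hl : 0 < lm) (hB : |w| ≤ B) : pen lm w ≤ B ^ 2 := by
  unfold pen
  refine pow_le_pow_left₀ (le_max_right _ _) ?_ 2
  refine max_le (by linarith) ((abs_nonneg _).trans hB)

/-- `y₊² ≥ 2 s y - s²` -/
theorem pen_ge {lm w s : ℝ} (hs : 0 ≤ s) : 2 * s * |w| - (4 * s * lm + s ^ 2) ≤ pen lm w := by
  unfold pen
  rcases le_total (|w| - 2 * lm) 0 with h | h
  · rw [max_eq_right h]
    nlinarith [mul_nonneg hs (neg_nonneg.2 h)]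
  · rw [max_eq_left h]
    nlinarith [sq_nonneg (|w| - 2 * lm - s)]

theorem huber {t w lm : ℝ} (hl : 0 < lm) (ht : |t| ≤ 2) :
    |t * w| ≤ 2⁻¹ * (lm * t ^ 2 + lm⁻¹ * (w ^ 2 - pen lm w)) := by
  have h1 : pen lm w ≤ (|w| - lm * |t|) ^ 2 := by
    unfold pen
    rcases le_total (|w| - 2 * lm) 0 with h | h
    · rw [max_eq_right h, zero_pow two_ne_zero]
      positivity
    · rw [max_eq_left h]
      refine pow_le_pow_left₀ h ?_ 2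
      nlinarith [abs_nonneg t]
  have h2 : 2⁻¹ * (lm * t ^ 2 + lm⁻¹ * (w ^ 2 - pen lm w)) =
      (lm ^ 2 * t ^ 2 + w ^ 2 - pen lm w) / (2 * lm) := by
    field_simp
    ring
  rw [h2, le_div_iff₀ (by positivity), abs_mul]
  nlinarith [sq_abs t, sq_abs w]

section
variable (S : NormSys)

/-- **The inequality.** -/
theorem limsup_huber {T W : S.X → ℝ} {B lm Q δ : ℝ} (hl : 0 < lm) (hT : ∀ x, |T x| ≤ 2)
    (hW : ∀ x, |W x| ≤ B)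
    (hMS : ∀ η : ℝ, 0 < η → ∀ᶠ ε : ℝ in 𝓝[>] 0, S.E ε (fun x => T x ^ 2) ≤ (1 + η) * LL ε)
    (hQ : ∀ η : ℝ, 0 < η → ∀ᶠ ε : ℝ in 𝓝[>] 0, S.E ε (fun x => W x ^ 2) ≤ (Q + η) * LL ε)
    (hδ : ∀ η : ℝ, 0 < η → ∀ᶠ ε : ℝ in 𝓝[>] 0,
      (δ - η) * LL ε ≤ S.E ε (fun x => pen lm (W x)))
    {X : ℝ → ℝ} (hX : (fun ε => X ε * LL ε - S.E ε (fun x => T x * W x)) =o[𝓝[>] 0] LL)
    {η : ℝ} (hη : 0 < η) :
    ∀ᶠ ε : ℝ in 𝓝[>] 0, |X ε| ≤ 2⁻¹ * (lm + lm⁻¹ * (Q - δ)) + η := by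
  set M : ℝ := lm / 2 + lm⁻¹ + 1 with hM
  have hli : 0 < lm⁻¹ := inv_pos.2 hl
  have hM0 : 0 < M := by positivity
  set η' : ℝ := η / M with hη'
  have hη0 : 0 < η' := by positivity
  have hB0 : 0 ≤ B := (abs_nonneg _).trans (hW S.nonempty.some)
  filter_upwards [hMS η' hη0, hQ η' hη0, hδ η' hη0, isLittleO_iff.1 hX hη0,
    LL_tendsto.eventually_gt_atTop 0, self_mem_nhdsWithin] with ε h1 h2 h3 h4 h5 h6
  have hε : (0 : ℝ) < ε := h6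
  rw [Real.norm_eq_abs, Real.norm_eq_abs, abs_of_pos h5] at h4
  have b1 : ∀ x, |T x ^ 2| ≤ 4 := fun x => by
    rw [abs_pow]
    calc |T x| ^ 2 ≤ 2 ^ 2 := pow_le_pow_left₀ (abs_nonneg _) (hT x) 2
      _ = 4 := by norm_num
  have b2 : ∀ x, |W x ^ 2| ≤ B ^ 2 := fun x => by
    rw [abs_pow]
    exact pow_le_pow_left₀ (abs_nonneg _) (hW x) 2
  have b3 : ∀ x, |pen lm (W x)| ≤ B ^ 2 := fun x => by
    rw [abs_of_nonneg (pen_nonneg _ _)]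
    exact pen_le hl (hW x)
  have b4 : ∀ x, |T x * W x| ≤ 2 * B := fun x => by
    rw [abs_mul]
    exact mul_le_mul (hT x) (hW x) (abs_nonneg _) (by norm_num)
  -- decomposition
  have c1 : ∀ x, |(2⁻¹ * lm) * T x ^ 2| ≤ (2⁻¹ * lm) * 4 := fun x => by
    rw [abs_mul, abs_of_pos (by positivity : (0:ℝ) < 2⁻¹ * lm)]
    exact mul_le_mul_of_nonneg_left (b1 x) (by positivity)
  have c2 : ∀ x, |(2⁻¹ * lm⁻¹) * W x ^ 2| ≤ (2⁻¹ * lm⁻¹) * B ^ 2 := fun x => by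
    rw [abs_mul, abs_of_pos (by positivity : (0:ℝ) < 2⁻¹ * lm⁻¹)]
    exact mul_le_mul_of_nonneg_left (b2 x) (by positivity)
  have c3 : ∀ x, |(-(2⁻¹ * lm⁻¹)) * pen lm (W x)| ≤ (2⁻¹ * lm⁻¹) * B ^ 2 := fun x => by
    rw [abs_mul, abs_neg, abs_of_pos (by positivity : (0:ℝ) < 2⁻¹ * lm⁻¹)]
    exact mul_le_mul_of_nonneg_left (b3 x) (by positivity)
  have c4 : ∀ x, |(2⁻¹ * lm) * T x ^ 2 + (2⁻¹ * lm⁻¹) * W x ^ 2| ≤
      (2⁻¹ * lm) * 4 + (2⁻¹ * lm⁻¹) * B ^ 2 := fun x =>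
    (abs_add_le _ _).trans (add_le_add (c1 x) (c2 x))
  have e1 : S.E ε (fun x => ((2⁻¹ * lm) * T x ^ 2 + (2⁻¹ * lm⁻¹) * W x ^ 2) +
      (-(2⁻¹ * lm⁻¹)) * pen lm (W x)) =
      (2⁻¹ * lm) * S.E ε (fun x => T x ^ 2) + (2⁻¹ * lm⁻¹) * S.E ε (fun x => W x ^ 2) +
      (-(2⁻¹ * lm⁻¹)) * S.E ε (fun x => pen lm (W x)) := by
    rw [S.E_add hε c4 c3, S.E_add hε c1 c2, S.E_const_mul, S.E_const_mul, S.E_const_mul]
  have e2 : |S.E ε (fun x => T x * W x)| ≤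
      S.E ε (fun x => ((2⁻¹ * lm) * T x ^ 2 + (2⁻¹ * lm⁻¹) * W x ^ 2) +
      (-(2⁻¹ * lm⁻¹)) * pen lm (W x)) := by
    refine (abs_E_le S hε b4).trans ?_
    refine E_mono S hε (B := 2 * B) (B' := ((2⁻¹ * lm) * 4 + (2⁻¹ * lm⁻¹) * B ^ 2) +
      (2⁻¹ * lm⁻¹) * B ^ 2) (fun x => by rw [abs_abs]; exact b4 x)
      (fun x => (abs_add_le _ _).trans (add_le_add (c4 x) (c3 x))) (fun x => ?_)
    refine (huber hl (hT x)).trans (le_of_eq ?_)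
    ring
  rw [e1] at e2
  have g1 : (2⁻¹ * lm) * S.E ε (fun x => T x ^ 2) ≤ (2⁻¹ * lm) * ((1 + η') * LL ε) :=
    mul_le_mul_of_nonneg_left h1 (by positivity)
  have g2 : (2⁻¹ * lm⁻¹) * S.E ε (fun x => W x ^ 2) ≤ (2⁻¹ * lm⁻¹) * ((Q + η') * LL ε) :=
    mul_le_mul_of_nonneg_left h2 (by positivity)
  have g3 : (2⁻¹ * lm⁻¹) * ((δ - η') * LL ε) ≤ (2⁻¹ * lm⁻¹) * S.E ε (fun x => pen lm (W x)) :=
    mul_le_mul_of_nonneg_left h3 (by positivity)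
  have g4 : |X ε| * LL ε ≤ |S.E ε (fun x => T x * W x)| + η' * LL ε := by
    have e3 : |X ε| * LL ε = |X ε * LL ε| := by rw [abs_mul, abs_of_pos h5]
    rw [e3]
    have := abs_sub_abs_le_abs_sub (X ε * LL ε) (S.E ε (fun x => T x * W x))
    linarith
  have g5 : |X ε| * LL ε ≤ (2⁻¹ * (lm + lm⁻¹ * (Q - δ)) + η) * LL ε := by
    have e4 : η = η' * M := by rw [hη']; field_simp
    have e5 : (2⁻¹ * (lm + lm⁻¹ * (Q - δ)) + η) * LL ε =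
        (2⁻¹ * lm) * ((1 + η') * LL ε) + (2⁻¹ * lm⁻¹) * ((Q + η') * LL ε) -
        (2⁻¹ * lm⁻¹) * ((δ - η') * LL ε) + η' * LL ε := by
      rw [e4, hM]
      ring
    rw [e5]
    linarith
  exact le_of_mul_le_mul_right g5 h5

end

end Pool.Agent.Y684.L2
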