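import Pool.Agent.TH322.BC.Defs
import Pool.Agent.TH941.Newform
import Pool.Agent.W353.TP.Gram

/-!
# The edge of the L-functions over extension fields, by the mean square of the coefficients

`E` is an elliptic curve over a number field `K`.  The Euler products, the quadratic twists `E_D` over
the number fields `F ⊇ K`, their sizes `log |L(3/2 + iτ + ε)| / log(1/ε)` and orders at `3/2 + iτ` are
those of `Pool.Agent.TH322.BC.Edge`; `inum K F F' D D'` is the number of the simple factors of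
`F ⊗ F'` in which `D ⊗ D'` is a square.
-/

set_option autoImplicit false
open Classical

namespace Pool.Agent.Y684.L2.Edge

open NumberField IsDedekindDomain Filter Topology
open Pool.Agent.TH322.BC.Edge (MinimalModels size HasOrder LimsupLE kappa TwistOver)
open Pool.Agent.W353.TP (inum)
open scoped TensorProduct

/-- `a_v`: `q_v` minus the number of the affine points of the reduction of `V v`. -/
noncomputable def coefficient {F : Type} [Field F] [NumberField F]
    (V : HeightOneSpectrum (𝓞 F) → WeierstrassCurve (𝓞 F)) (v : HeightOneSpectrum (𝓞 F)) : ℤ :=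
  ((Ideal.absNorm v.asIdeal : ℕ) : ℤ) -
    ((Nat.card {p : (𝓞 F ⧸ v.asIdeal) × (𝓞 F ⧸ v.asIdeal) //
      p.2 ^ 2 + Ideal.Quotient.mk v.asIdeal (V v).a₁ * p.1 * p.2
        + Ideal.Quotient.mk v.asIdeal (V v).a₃ * p.2
      = p.1 ^ 3 + Ideal.Quotient.mk v.asIdeal (V v).a₂ * p.1 ^ 2
        + Ideal.Quotient.mk v.asIdeal (V v).a₄ * p.1
        + Ideal.Quotient.mk v.asIdeal (V v).a₆} : ℕ) : ℤ)

/-- `limsup (∑ a_v² q_v^{-2-ε}) / log(1/ε) ≤ 1` as `ε → 0+`. -/
def MeanSquareLeOne {K : Type} [Field K] [NumberField K] (E : WeierstrassCurve K) : Prop :=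
  ∃ V : HeightOneSpectrum (𝓞 K) → WeierstrassCurve (𝓞 K), MinimalModels E V ∧
    ∀ η : ℝ, 0 < η → ∀ᶠ ε : ℝ in 𝓝[>] 0,
      ∑' v : HeightOneSpectrum (𝓞 K),
        (coefficient V v : ℝ) ^ 2 * ((Ideal.absNorm v.asIdeal : ℕ) : ℝ) ^ (-(2 + ε)) ≤
      (1 + η) * Real.log (1 / ε)

/-- The coefficients `a_p` of `E` are, for all but finitely many primes `p`, those of a normalised
Hecke eigenform of weight two for `Γ₀(N)`. -/
def Modular (E : WeierstrassCurve ℚ) : Prop :=
  ∃ V : HeightOneSpectrum (𝓞 ℚ) → WeierstrassCurve (𝓞 ℚ), MinimalModels E V ∧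
    ∃ (N : ℕ) (_ : NeZero N)
      (f : CuspForm (CongruenceSubgroup.Gamma0 N : Subgroup (GL (Fin 2) ℝ)) 2),
      Pool.Agent.TH941.Hecke f ∧
      {v : HeightOneSpectrum (𝓞 ℚ) |
        (UpperHalfPlane.qExpansion 1 f).coeff (Ideal.absNorm v.asIdeal) ≠
          ((coefficient V v : ℤ) : ℂ)}.Finite

section
variable {K : Type} [Field K] [NumberField K] {E : WeierstrassCurve K}

/-- the quadratic form of a family of twists, with heights `τ` -/
noncomputable def form {ι : Type} [Fintype ι] (F : ι → Type) [∀ k, Field (F k)]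
    [∀ k, NumberField (F k)] [∀ k, Algebra K (F k)] (X : ∀ k, TwistOver E (F k))
    (τ c : ι → ℝ) : ℝ :=
  2⁻¹ * ∑ k, ∑ l, c k * c l * ((inum K (F k) (F l) ((X k).D : F k) ((X l).D : F l) : ℝ) *
    ((if τ k = τ l then 1 else 0) + (if τ k = -τ l then 1 else 0)))

variable (E)

/-- **Linear relations** for finitely many twists at arbitrary heights. -/
def Relations : Prop :=
  ∀ (ι : Type) [Fintype ι] (F : ι → Type) [∀ k, Field (F k)] [∀ k, NumberField (F k)]
    [∀ k, Algebra K (F k)] (X : ∀ k, TwistOver E (F k)) (τ c : ι → ℝ),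
    LimsupLE (fun ε => ∑ k, c k * size (X k).V (τ k) ε) (Real.sqrt (form F X τ c)) ∧
    ∀ m : ι → ℤ, (∀ k, HasOrder (X k).V (τ k) (m k)) →
      |∑ k, c k * m k| ≤ Real.sqrt (form F X τ c)

/-- **Strict inequalities** for finitely many twists at one height. -/
def StrictRelations : Prop :=
  ∀ (ι : Type) [Fintype ι] (F : ι → Type) [∀ k, Field (F k)] [∀ k, NumberField (F k)]
    [∀ k, Algebra K (F k)] (X : ∀ k, TwistOver E (F k)) (τ : ℝ) (c : ι → ℝ),
    0 < form F X (fun _ => τ) c →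
    2 * Real.sqrt (form F X (fun _ => τ) c) <
      kappa τ * |∑ k, c k * (Module.finrank K (F k) : ℝ)| →
    (∃ B < Real.sqrt (form F X (fun _ => τ) c),
      LimsupLE (fun ε => ∑ k, c k * size (X k).V τ ε) B) ∧
    ∀ m : ι → ℤ, (∀ k, HasOrder (X k).V τ (m k)) →
      |∑ k, c k * m k| < Real.sqrt (form F X (fun _ => τ) c)

/-- **All zeros and poles on the edge.**  For points `3/2 ± iτ`, `τ ∈ T`, where a continuation
exists, the sum of the squares of the orders is at most the number of the simple factors of `F ⊗ F`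
in which `D ⊗ D` is a square. -/
def SquaresOfOrders : Prop :=
  ∀ (F : Type) [Field F] [NumberField F] [Algebra K F] (X : TwistOver E F) (T : Finset ℝ)
    (m : ℝ → ℤ), (∀ τ ∈ T, 0 ≤ τ) → (∀ τ ∈ T, HasOrder X.V τ (m τ)) →
    ∑ τ ∈ T, (if τ = 0 then 1 else 2) * (m τ) ^ 2 ≤ (inum K F F (X.D : F) (X.D : F) : ℤ)

/-- **Irreducible twists.** -/
def IrreducibleTwists : Prop :=
  ∀ (F : Type) [Field F] [NumberField F] [Algebra K F] (X : TwistOver E F) (τ : ℝ),
    (inum K F F (X.D : F) (X.D : F) = 1 ∧ (τ ≠ 0 ∨ 3 ≤ Module.finrank K F)) ∨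
    (inum K F F (X.D : F) (X.D : F) = 2 ∧ τ ≠ 0 ∧ 4 ≤ Module.finrank K F) →
    (∃ B < 1, LimsupLE (size X.V τ) B) ∧ ∀ m : ℤ, HasOrder X.V τ m → m = 0

/-- **Base change.** -/
def BaseChange : Prop :=
  ∀ (F : Type) [Field F] [NumberField F] [Algebra K F]
    (V : HeightOneSpectrum (𝓞 K) → WeierstrassCurve (𝓞 K))
    (V' : HeightOneSpectrum (𝓞 F) → WeierstrassCurve (𝓞 F)), MinimalModels E V →
    MinimalModels (E.map (algebraMap K F)) V' → ∀ τ : ℝ,
    (Nat.card (MaximalSpectrum (F ⊗[K] F)) = 2 ∧ (τ ≠ 0 ∨ 4 ≤ Module.finrank K F)) ∨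
    (Nat.card (MaximalSpectrum (F ⊗[K] F)) = 3 ∧ τ ≠ 0 ∧ 5 ≤ Module.finrank K F) →
    (∃ B < 1, LimsupLE (fun ε => size V' τ ε - size V τ ε) B) ∧
    ∀ m m' : ℤ, HasOrder V τ m → HasOrder V' τ m' → m' = m

end

end Pool.Agent.Y684.L2.Edge
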