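import Pool.Agent.Y684.L2.Main
import Pool.Agent.Y684.L2.Defs

/-! The theorems on the edge. -/

set_option autoImplicit false
set_option linter.unusedSectionVars false
open Classical

namespace Pool.Agent.Y684.L2.Edge

open Complex Filter Topology NumberField IsDedekindDomain Asymptotics
open Pool.Agent.Y684.L2
open Pool.Agent.W353.NF (kap kap_pos)
open Pool.Agent.W353.TP (HX sysH LL inum)
open Pool.Agent.W353.AB (tEH syE)
open Pool.Agent.H341R2 (sysK NormSys)
open Pool.Agent.TH322.BC.Edge (MinimalModels LimsupLE TwistOver size HasOrder size_twist size_base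
  orders lim_abs_le coe_ne kappa kappa_eq)
open scoped TensorProduct

section
variable {K : Type} [Field K] [NumberField K] {E : WeierstrassCurve K} {l P Q : 𝓞 K} (hl : l ≠ 0)
    (hP : (P : K) = (l : K) ^ 4 * E.c₄) (hQ : (Q : K) = (l : K) ^ 6 * E.c₆)
    (hD : P ^ 3 - Q ^ 2 ≠ 0)
    (hMS : ∀ η : ℝ, 0 < η → ∀ᶠ ε : ℝ in 𝓝[>] 0,
      (sysH K).E ε (fun x => (tEH P Q x).re ^ 2) ≤ (1 + η) * LL ε)

include hl hP hQ hD hMS

theorem relations : Relations E := by
  intro ι _ F _ _ _ X τ c
  have h1 : LimsupLE (fun ε => ∑ k, c k * size (X k).V (τ k) ε) (Real.sqrt (form F X τ c)) :=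
    gen hMS Finset.univ F (fun k => (X k).D) (fun k _ => (X k).D_ne_zero) τ c
      (fun k => size (X k).V (τ k)) (fun k _ => (size_twist hl hP hQ hD (X k) (τ k)).2)
  refine ⟨h1, fun m hm => ?_⟩
  have h3 : Tendsto (fun ε => ∑ k, c k * size (X k).V (τ k) ε) (𝓝[>] 0)
      (𝓝 (∑ k, c k * (-(m k : ℝ)))) :=
    tendsto_finsetSum _ fun k _ =>
      (orders (size_twist hl hP hQ hD (X k) (τ k)).1 (hm k)).const_mul (c k)
  have h4 := lim_abs_le h3 h1
  have e : ∑ k, c k * (-(m k : ℝ)) = -∑ k, c k * (m k : ℝ) := by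
    rw [← Finset.sum_neg_distrib]
    exact Finset.sum_congr rfl fun k _ => by ring
  rwa [e, abs_neg] at h4

theorem strict_relations : StrictRelations E := by
  intro ι _ F _ _ _ X τ c hpos hlt
  rw [kappa_eq] at hlt
  obtain ⟨B, hB, h1⟩ := strict hMS Finset.univ F (fun k => (X k).D) (fun k => (X k).D_ne_zero) τ c
      (fun k => size (X k).V τ) (fun k _ => (size_twist hl hP hQ hD (X k) τ).2) hpos hlt
  refine ⟨⟨B, hB, h1⟩, fun m hm => ?_⟩
  have h3 : Tendsto (fun ε => ∑ k, c k * size (X k).V τ ε) (𝓝[>] 0)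
      (𝓝 (∑ k, c k * (-(m k : ℝ)))) :=
    tendsto_finsetSum _ fun k _ =>
      (orders (size_twist hl hP hQ hD (X k) τ).1 (hm k)).const_mul (c k)
  have h4 := lim_abs_le h3 h1
  have e : ∑ k, c k * (-(m k : ℝ)) = -∑ k, c k * (m k : ℝ) := by
    rw [← Finset.sum_neg_distrib]
    exact Finset.sum_congr rfl fun k _ => by ring
  rw [e, abs_neg] at h4
  exact lt_of_le_of_lt h4 hB

theorem squares_of_orders : SquaresOfOrders E := by
  intro F _ _ _ X T m hT hm
  set r : ℝ := (inum K F F (X.D : F) (X.D : F) : ℝ) with hr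
  have hr0 : 0 ≤ r := Nat.cast_nonneg _
  set c : ℝ → ℝ := fun τ => (if τ = 0 then 2⁻¹ else 1) * (m τ : ℝ) with hc
  set A : ℝ := ∑ τ ∈ T, (if τ = 0 then (2⁻¹ : ℝ) else 1) * (m τ : ℝ) ^ 2 with hA
  have hA0 : 0 ≤ A := Finset.sum_nonneg fun τ _ => by split_ifs <;> positivity
  have h1 := gen hMS T (fun _ : ℝ => F) (fun _ => X.D) (fun _ _ => X.D_ne_zero) (fun τ => τ) c
      (fun τ => size X.V τ) (fun τ _ => (size_twist hl hP hQ hD X τ).2)
  have h3 : Tendsto (fun ε => ∑ τ ∈ T, c τ * size X.V τ ε) (𝓝[>] 0)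
      (𝓝 (∑ τ ∈ T, c τ * (-(m τ : ℝ)))) :=
    tendsto_finsetSum _ fun τ hτ =>
      (orders (size_twist hl hP hQ hD X τ).1 (hm τ hτ)).const_mul (c τ)
  have h4 := lim_abs_le h3 h1
  have e : ∑ τ ∈ T, c τ * (-(m τ : ℝ)) = -A := by
    rw [hA, ← Finset.sum_neg_distrib]
    refine Finset.sum_congr rfl fun k _ => ?_
    rw [hc]
    ring
  have eq : qf (K := K) T (fun _ : ℝ => F) (fun _ => X.D) (fun τ => τ) c = r * A / 2 := by
    unfold qf
    have e1 : ∀ k ∈ T, ∑ l ∈ T, c k * c l * ((inum K F F (X.D : F) (X.D : F) : ℝ) *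
        ((if k = l then 1 else 0) + (if k = -l then 1 else 0))) =
        r * ((if k = 0 then (2⁻¹ : ℝ) else 1) * (m k : ℝ) ^ 2) := by
      intro k hk
      rw [Finset.sum_eq_single k]
      · have hk0 := hT k hk
        by_cases h0 : k = 0
        · rw [if_pos rfl, if_pos (by rw [h0]; simp), hc, ← hr]
          simp only [if_pos h0]
          ring
        · have h5 : ¬ k = -k := by
            intro h
            apply h0
            linarith
          rw [if_pos rfl, if_neg h5, hc, ← hr]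
          simp only [if_neg h0]
          ring
      · intro l' hl' hne
        have h5 : ¬ k = l' := fun h => hne h.symm
        have h6 : ¬ k = -l' := by
          intro h
          have a1 := hT k hk
          have a2 := hT l' hl'
          exact h5 (by linarith)
        rw [if_neg h5, if_neg h6]
        ring
      · intro h
        exact absurd hk h
    rw [Finset.sum_congr rfl e1, ← Finset.mul_sum]
    rw [← hA]
    ring
  rw [e, abs_neg, abs_of_nonneg hA0, eq] at h4
  have h5 : 2 * A ≤ r := by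
    rcases hA0.eq_or_lt with h0 | h0
    · rw [← h0]
      linarith
    · have h6 : A ^ 2 ≤ r * A / 2 := by
        have h7 : 0 ≤ r * A / 2 := by positivity
        have h8 := pow_le_pow_left₀ hA0 h4 2
        rwa [Real.sq_sqrt h7] at h8
      have h9 : A * A ≤ (r / 2) * A := by nlinarith
      have h10 := le_of_mul_le_mul_right h9 h0
      linarith
  have h6 : ((∑ τ ∈ T, (if τ = 0 then 1 else 2) * (m τ) ^ 2 : ℤ) : ℝ) = 2 * A := by
    push_cast
    rw [hA, Finset.mul_sum]
    refine Finset.sum_congr rfl fun τ _ => ?_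
    split_ifs
    · ring
    · ring
  have h7 : ((∑ τ ∈ T, (if τ = 0 then 1 else 2) * (m τ) ^ 2 : ℤ) : ℝ) ≤
      (((inum K F F (X.D : F) (X.D : F) : ℕ) : ℤ) : ℝ) := by
    rw [h6]
    push_cast
    exact h5
  exact_mod_cast h7

omit hl hP hQ hD hMS in
theorem qf_unit (F : Type) [Field F] [NumberField F] [Algebra K F] (D : 𝓞 F) (τ : ℝ) :
    qf (K := K) (Finset.univ : Finset Unit) (fun _ => F) (fun _ => D) (fun _ => τ) (fun _ => 1) =
      (if τ = 0 then 1 else 2⁻¹) * (inum K F F (D : F) (D : F) : ℝ) := by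
  unfold qf
  simp only [Finset.univ_unique, Finset.sum_singleton, mul_one, one_mul, if_true]
  by_cases h : τ = 0
  · rw [if_pos h, if_pos (by rw [h, neg_zero])]
    ring
  · rw [if_neg h, if_neg (fun h' => h (by linarith))]
    ring

omit hl hP hQ hD hMS in
theorem zero_of_lim {x : ℝ → ℝ} {m : ℤ} (h : Tendsto x (𝓝[>] 0) (𝓝 (-(m : ℝ))))
    (hB : ∃ B < 1, LimsupLE x B) : m = 0 := by
  obtain ⟨B, hB, h1⟩ := hB
  have h4 := lim_abs_le h h1
  rw [abs_neg] at h4
  have h5 : |(m : ℝ)| < 1 := lt_of_le_of_lt h4 hB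
  have h6 : |m| < 1 := by exact_mod_cast h5
  rwa [Int.abs_lt_one_iff] at h6

omit hl hP hQ hD hMS in
theorem pi_lt : Real.pi < 4 := by
  have := Real.pi_lt_d2
  linarith

omit hl hP hQ hD hMS in
theorem sqrt_half : Real.sqrt 2⁻¹ < 1 := by
  rw [Real.sqrt_lt' one_pos]
  norm_num

omit hl hP hQ hD hMS in
theorem kap_zero : kap 0 = 1 := by unfold kap; rw [if_pos rfl]

omit hl hP hQ hD hMS in
theorem kap_ne {τ : ℝ} (h : τ ≠ 0) : kap τ = 2 / Real.pi := by unfold kap; rw [if_neg h]

theorem irreducible_twists : IrreducibleTwists E := by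
  intro F _ _ _ X τ hyp
  have hq := qf_unit (K := K) F X.D τ
  have hsz : ∀ k ∈ (Finset.univ : Finset Unit), (syE P Q).IsSize (F := F) (fun _ => X.D) τ
      (size X.V τ) := fun _ _ => (size_twist hl hP hQ hD X τ).2
  have key : ∃ B < 1, LimsupLE (size X.V τ) B := by
    have hg := gen hMS (Finset.univ : Finset Unit) (fun _ => F) (fun _ => X.D)
      (fun _ _ => X.D_ne_zero) (fun _ => τ) (fun _ => 1) (fun _ => size X.V τ) hsz
    have hs := strict hMS (Finset.univ : Finset Unit) (fun _ => F) (fun _ => X.D)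
      (fun _ => X.D_ne_zero) τ (fun _ => 1) (fun _ => size X.V τ) hsz
    have e1 : (fun ε => ∑ _k ∈ (Finset.univ : Finset Unit), 1 * size X.V τ ε) = size X.V τ := by
      funext ε
      simp
    have e2 : |∑ _k ∈ (Finset.univ : Finset Unit), (1 : ℝ) * (Module.finrank K F : ℝ)| =
        Module.finrank K F := by
      simp
    rw [e1, hq] at hg
    rw [hq, e2] at hs
    simp only [one_mul, Finset.univ_unique, Finset.sum_singleton] at hs
    rcases hyp with ⟨h1, h2⟩ | ⟨h1, h2, h3⟩
    · rw [h1] at hg hs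
      by_cases hτ : τ = 0
      · have h3 : 3 ≤ Module.finrank K F := h2.resolve_left (not_not.2 hτ)
        have h4 : (3 : ℝ) ≤ (Module.finrank K F : ℝ) := by exact_mod_cast h3
        rw [if_pos hτ] at hs
        norm_num at hs
        rw [hτ, kap_zero] at hs
        obtain ⟨B, hB, h5⟩ := hs (by linarith)
        rw [hτ]
        exact ⟨B, hB, h5⟩
      · rw [if_neg hτ, Nat.cast_one, mul_one] at hg
        exact ⟨_, sqrt_half, hg⟩
    · rw [h1, if_neg h2] at hs
      norm_num at hs
      rw [kap_ne h2] at hs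
      have h4 : (4 : ℝ) ≤ (Module.finrank K F : ℝ) := by exact_mod_cast h3
      have hpi := Real.pi_pos
      obtain ⟨B, hB, h5⟩ := hs (by
        rw [div_mul_eq_mul_div, lt_div_iff₀ hpi]
        have := pi_lt
        nlinarith)
      exact ⟨B, hB, h5⟩
  refine ⟨key, fun m hm => ?_⟩
  exact zero_of_lim (orders (size_twist hl hP hQ hD X τ).1 hm) key

omit hl hP hQ hD hMS in
theorem qf_pair (F : Type) [Field F] [NumberField F] [Algebra K F] (τ : ℝ) :
    qf (K := K) (Finset.univ : Finset Bool) (fam K F) (fun _ => 1) (fun _ => τ)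
      (fun b => if b then 1 else -1) =
      (if τ = 0 then 1 else 2⁻¹) * ((Nat.card (MaximalSpectrum (F ⊗[K] F)) : ℝ) - 1) := by
  have h1 : (inum K (fam K F true) (fam K F true) ((1 : 𝓞 (fam K F true)) : fam K F true)
      ((1 : 𝓞 (fam K F true)) : fam K F true) : ℝ) = Nat.card (MaximalSpectrum (F ⊗[K] F)) := by
    have := inum_one K F (F' := F)
    exact_mod_cast this
  have h2 : (inum K (fam K F true) (fam K F false) ((1 : 𝓞 (fam K F true)) : fam K F true)
      ((1 : 𝓞 (fam K F false)) : fam K F false) : ℝ) = 1 := by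
    have := inum_one K F (F' := K)
    rw [card_base] at this
    exact_mod_cast this
  have h3 : (inum K (fam K F false) (fam K F true) ((1 : 𝓞 (fam K F false)) : fam K F false)
      ((1 : 𝓞 (fam K F true)) : fam K F true) : ℝ) = 1 := by
    have := inum_one K K (F' := F)
    rw [card_base'] at this
    exact_mod_cast this
  have h4 : (inum K (fam K F false) (fam K F false) ((1 : 𝓞 (fam K F false)) : fam K F false)
      ((1 : 𝓞 (fam K F false)) : fam K F false) : ℝ) = 1 := by
    have := inum_one K K (F' := K)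
    rw [card_base] at this
    exact_mod_cast this
  unfold qf
  simp only [Fintype.sum_bool, if_true, h1, h2, h3, h4]
  by_cases h : τ = 0
  · rw [if_pos h, if_pos (by rw [h, neg_zero])]
    simp
    ring
  · rw [if_neg h, if_neg (fun h' => h (by linarith))]
    simp
    ring

theorem base_change : BaseChange E := by
  intro F _ _ _ V V' hV hV' τ hyp
  have hq := qf_pair (K := K) F τ
  have hVK : MinimalModels (E.map (algebraMap K K)) V := by
    have : E.map (algebraMap K K) = E := E.map_id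
    rwa [this]
  have s0 := size_base (F := K) hl hP hQ hD hVK τ
  have s1 := size_base (F := F) hl hP hQ hD hV' τ
  set X : Bool → ℝ → ℝ := fun b => if b then size V' τ else size V τ with hX
  have hsz : ∀ k ∈ (Finset.univ : Finset Bool), (syE P Q).IsSize (F := fam K F k) (fun _ => 1) τ
      (X k) := by
    intro k _
    cases k
    · exact s0.2
    · exact s1.2
  have key : ∃ B < 1, LimsupLE (fun ε => size V' τ ε - size V τ ε) B := by
    have hg := gen hMS (Finset.univ : Finset Bool) (fam K F) (fun _ => 1)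
      (fun _ _ => one_ne_zero) (fun _ => τ) (fun b => if b then 1 else -1) X hsz
    have hs := strict hMS (Finset.univ : Finset Bool) (fam K F) (fun _ => 1)
      (fun _ => one_ne_zero) τ (fun b => if b then 1 else -1) X hsz
    have e1 : (fun ε => ∑ k ∈ (Finset.univ : Finset Bool), (if k then (1 : ℝ) else -1) * X k ε) =
        fun ε => size V' τ ε - size V τ ε := by
      funext ε
      rw [Fintype.sum_bool, hX]
      simp
      ring
    have hn1 : 1 ≤ Module.finrank K F := Module.finrank_pos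
    have e2 : |∑ k ∈ (Finset.univ : Finset Bool), (if k then (1 : ℝ) else -1) *
        (Module.finrank K (fam K F k) : ℝ)| = (Module.finrank K F : ℝ) - 1 := by
      have f1 : Module.finrank K (fam K F true) = Module.finrank K F := rfl
      have f2 : Module.finrank K (fam K F false) = 1 := Module.finrank_self K
      have h4 : (1 : ℝ) ≤ (Module.finrank K F : ℝ) := by exact_mod_cast hn1
      rw [Fintype.sum_bool, f1, f2]
      simp
      rw [abs_of_nonneg (by linarith)]
      ring
    rw [e1, hq] at hg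
    rw [hq, e2, e1] at hs
    rcases hyp with ⟨h1, h2⟩ | ⟨h1, h2, h3⟩
    · rw [h1] at hg hs
      by_cases hτ : τ = 0
      · have h3 : 4 ≤ Module.finrank K F := h2.resolve_left (not_not.2 hτ)
        have h4 : (4 : ℝ) ≤ (Module.finrank K F : ℝ) := by exact_mod_cast h3
        rw [if_pos hτ] at hs
        norm_num at hs
        obtain ⟨B, hB, h5⟩ := hs (by
          rw [hτ, kap_zero]
          linarith)
        exact ⟨B, hB, h5⟩
      · rw [if_neg hτ] at hg
        have e3 : (2⁻¹ : ℝ) * (((2 : ℕ) : ℝ) - 1) = 2⁻¹ := by norm_num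
        rw [e3] at hg
        exact ⟨_, sqrt_half, hg⟩
    · rw [h1, if_neg h2] at hs
      have e3 : (2⁻¹ : ℝ) * (((3 : ℕ) : ℝ) - 1) = 1 := by norm_num
      rw [e3, Real.sqrt_one, kap_ne h2] at hs
      have h4 : (5 : ℝ) ≤ (Module.finrank K F : ℝ) := by exact_mod_cast h3
      have hpi := Real.pi_pos
      obtain ⟨B, hB, h5⟩ := hs one_pos (by
        rw [div_mul_eq_mul_div, lt_div_iff₀ hpi]
        have := pi_lt
        nlinarith)
      exact ⟨B, hB, h5⟩
  refine ⟨key, fun m m' hm hm' => ?_⟩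
  have h6 : Tendsto (fun ε => size V' τ ε - size V τ ε) (𝓝[>] 0) (𝓝 (-(((m' - m : ℤ)) : ℝ))) := by
    have h7 := (orders s1.1 hm').sub (orders s0.1 hm)
    have e : -(m' : ℝ) - -(m : ℝ) = -(((m' - m : ℤ)) : ℝ) := by push_cast; ring
    rwa [e] at h7
  have h8 := zero_of_lim h6 key
  omega

end

theorem main (K : Type) [Field K] [NumberField K] (E : WeierstrassCurve K) (hE : E.IsElliptic)
    (h : MeanSquareLeOne E) : Relations E ∧ StrictRelations E ∧ SquaresOfOrders E ∧
      IrreducibleTwists E ∧ BaseChange E := by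
  obtain ⟨l, P, Q, hl, hP, hQ, hD⟩ := Pool.Agent.H341R2.EC.exists_integral E hE
  obtain ⟨V, hV, hm⟩ := h
  have hMS : ∀ η : ℝ, 0 < η → ∀ᶠ ε : ℝ in 𝓝[>] 0,
      (sysH K).E ε (fun x => (tEH P Q x).re ^ 2) ≤ (1 + η) * LL ε := fun η hη =>
    ms_of_meanSq hl hP hQ hD hV hm hη
  exact ⟨relations hl hP hQ hD hMS, strict_relations hl hP hQ hD hMS,
    squares_of_orders hl hP hQ hD hMS, irreducible_twists hl hP hQ hD hMS,
    base_change hl hP hQ hD hMS⟩

theorem modular (E : WeierstrassCurve ℚ) (hE : E.IsElliptic) (h : Modular E) :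
    MeanSquareLeOne E := by
  obtain ⟨V, hV, N, hN, f, hf, hfin⟩ := h
  exact ⟨V, hV, meanSq_of_modular hE hV hf hfin⟩

end Pool.Agent.Y684.L2.Edge
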