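import Pool.Agent.TH322.BC.Main
import Pool.Agent.Y684.L2.Core

/-! The mean square of real linear combinations. -/

set_option autoImplicit false
set_option linter.unusedSectionVars false

namespace Pool.Agent.Y684.L2

open Complex Filter Topology ComplexConjugate NumberField IsDedekindDomain Asymptotics
  Pool.Agent.W401.Cheb Pool.Agent.W540.BE Pool.Agent.W353.L1 Pool.Agent.W353.NF Pool.Agent.TH322.BC
open Pool.Agent.W353.TP (HX sysH push push_abs_le qh qh_abs LL LL_tendsto bdd_isLittleO lam0_sub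
  inum E_mono abs_E_le E_norm_sq fsum_isLittleO)
open Pool.Agent.W353.AB (Sy vq gram norm_vq syE tEH)
open Pool.Agent.H341R2 (lam lam_tendsto sysK NormSys)

section
variable {K F F' : Type} [Field K] [NumberField K] [Field F] [NumberField F] [Algebra K F]
  [Field F'] [NumberField F'] [Algebra K F']

/-- the real part of the twisted character -/
noncomputable def rq (K : Type) {F : Type} [Field K] [NumberField K] [Field F] [NumberField F]
    [Algebra K F] (D : 𝓞 F) (τ : ℝ) (x : HX K) : ℝ := push K (qh D) x * cz τ (vx x)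

theorem abs_rq (D : 𝓞 F) (τ : ℝ) (x : HX K) : |rq K D τ x| ≤ Module.finrank ℚ F := by
  unfold rq
  rw [abs_mul]
  have h1 := push_abs_le (K := K) (qh_abs D) x
  rw [mul_one] at h1
  calc |push K (qh D) x| * |cz τ (vx x)| ≤ Module.finrank ℚ F * 1 :=
        mul_le_mul h1 (abs_cz _ _) (abs_nonneg _) (by positivity)
    _ = _ := mul_one _

theorem cz_vx (τ : ℝ) (x : HX K) : cz τ (vx x) = (((x.1 : ℕ) : ℂ) ^ ((τ : ℂ) * I)).re := by
  have hcj : conj (((x.1 : ℕ) : ℂ) ^ ((τ : ℂ) * I)) = ((x.1 : ℕ) : ℂ) ^ (-((τ : ℂ) * I)) :=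
    (sysH K).conj_cpow_I x τ
  unfold cz zz
  rw [nm_vx, ← hcj, Complex.conj_re]

theorem rq_mul (D : 𝓞 F) (D' : 𝓞 F') (τ σ : ℝ) (x : HX K) :
    rq K D τ x * rq K D' σ x = 2⁻¹ * (vq K D τ x * conj (vq K D' σ x)).re +
      2⁻¹ * (vq K D τ x * conj (vq K D' (-σ) x)).re := by
  set z := ((x.1 : ℕ) : ℂ) ^ ((τ : ℂ) * I) with hz
  set w := ((x.1 : ℕ) : ℂ) ^ ((σ : ℂ) * I) with hw
  have hcj : conj w = ((x.1 : ℕ) : ℂ) ^ (-((σ : ℂ) * I)) := (sysH K).conj_cpow_I x σ
  have e1 : vq K D τ x = ((push K (qh D) x : ℝ) : ℂ) * z := rfl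
  have e2 : vq K D' σ x = ((push K (qh D') x : ℝ) : ℂ) * w := rfl
  have e3 : vq K D' (-σ) x = ((push K (qh D') x : ℝ) : ℂ) * conj w := by
    have : vq K D' (-σ) x = ((push K (qh D') x : ℝ) : ℂ) *
      ((x.1 : ℕ) : ℂ) ^ (((-σ : ℝ) : ℂ) * I) := rfl
    rw [this, hcj]
    congr 2
    push_cast
    ring
  have e4 : rq K D τ x = push K (qh D) x * z.re := by unfold rq; rw [cz_vx]
  have e5 : rq K D' σ x = push K (qh D') x * w.re := by unfold rq; rw [cz_vx]
  rw [e1, e2, e3, e4, e5]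
  simp only [map_mul, Complex.conj_ofReal, Complex.conj_conj, Complex.mul_re, Complex.ofReal_re,
    Complex.ofReal_im, Complex.mul_im, Complex.conj_re, Complex.conj_im]
  ring

/-- the correlation of two real characters -/
theorem gram_rq {D : 𝓞 F} {D' : 𝓞 F'} (hD : D ≠ 0) (hD' : D' ≠ 0) (τ σ : ℝ)
    [Decidable (τ = σ)] [Decidable (τ = -σ)] :
    (fun ε => ((sysH K).E ε fun x : HX K => rq K D τ x * rq K D' σ x) -
      (2⁻¹ * ((inum K F F' (D : F) (D' : F') : ℝ) *
        ((if τ = σ then 1 else 0) + (if τ = -σ then 1 else 0)))) * LL ε) =o[𝓝[>] 0] LL := by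
  have h1 := (gram (K := K) hD hD' τ σ).const_mul_left 2⁻¹
  have h2 := (gram (K := K) hD hD' τ (-σ)).const_mul_left 2⁻¹
  refine (h1.add h2).congr' ?_ (EventuallyEq.refl _ _)
  filter_upwards [self_mem_nhdsWithin] with ε hε
  have hε' : (0 : ℝ) < ε := hε
  have hb : ∀ (ρ : ℝ) (x : HX K), |2⁻¹ * (vq K D τ x * conj (vq K D' ρ x)).re| ≤
      2⁻¹ * ((Module.finrank ℚ F : ℝ) * Module.finrank ℚ F') := by
    intro ρ x
    rw [abs_mul, abs_of_pos (by norm_num : (0:ℝ) < 2⁻¹)]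
    refine mul_le_mul_of_nonneg_left ?_ (by norm_num)
    refine (Complex.abs_re_le_norm _).trans ?_
    rw [norm_mul, Complex.norm_conj]
    exact mul_le_mul (norm_vq D τ x) (norm_vq D' ρ x) (norm_nonneg _) (by positivity)
  have e1 : ((sysH K).E ε fun x : HX K => rq K D τ x * rq K D' σ x) =
      2⁻¹ * ((sysH K).E ε fun x : HX K => (vq K D τ x * conj (vq K D' σ x)).re) +
      2⁻¹ * ((sysH K).E ε fun x : HX K => (vq K D τ x * conj (vq K D' (-σ) x)).re) := by
    have e2 : (fun x : HX K => rq K D τ x * rq K D' σ x) = fun x : HX K =>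
      2⁻¹ * (vq K D τ x * conj (vq K D' σ x)).re +
      2⁻¹ * (vq K D τ x * conj (vq K D' (-σ) x)).re := by
      funext x
      exact rq_mul D D' τ σ x
    have e3 := (sysH K).E_add hε' (hb σ) (hb (-σ))
    rw [(sysH K).E_const_mul, (sysH K).E_const_mul] at e3
    exact (congrArg ((sysH K).E ε) e2).trans e3
  rw [e1]
  split_ifs <;> ring

end

section
variable {K : Type} [Field K] [NumberField K]

/-- the quadratic form -/
noncomputable def qf {κ : Type*} (S : Finset κ) (F : κ → Type) [∀ k, Field (F k)]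
    [∀ k, NumberField (F k)] [∀ k, Algebra K (F k)] (D : ∀ k, 𝓞 (F k)) (τ c : κ → ℝ) : ℝ := by
  classical
  exact 2⁻¹ * ∑ k ∈ S, ∑ l ∈ S, c k * c l * ((inum K (F k) (F l) (D k : F k) (D l : F l) : ℝ) *
    ((if τ k = τ l then 1 else 0) + (if τ k = -τ l then 1 else 0)))

theorem mean_sq {κ : Type*} (S : Finset κ) (F : κ → Type) [∀ k, Field (F k)]
    [∀ k, NumberField (F k)] [∀ k, Algebra K (F k)] (D : ∀ k, 𝓞 (F k)) (hD : ∀ k ∈ S, D k ≠ 0)
    (τ c : κ → ℝ) :
    (fun ε => ((sysH K).E ε fun x : HX K => (∑ k ∈ S, c k * rq K (D k) (τ k) x) ^ 2) -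
      qf (K := K) S F D τ c * LL ε) =o[𝓝[>] 0] LL := by
  classical
  have h1 : (fun ε => ∑ k ∈ S, ∑ l ∈ S, (c k * c l) *
      (((sysH K).E ε fun x : HX K => rq K (D k) (τ k) x * rq K (D l) (τ l) x) -
      (2⁻¹ * ((inum K (F k) (F l) (D k : F k) (D l : F l) : ℝ) *
        ((if τ k = τ l then 1 else 0) + (if τ k = -τ l then 1 else 0)))) * LL ε))
      =o[𝓝[>] 0] LL := by
    refine fsum_isLittleO _ fun k hk => fsum_isLittleO _ fun l hl => IsLittleO.const_mul_left ?_ _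
    exact gram_rq (hD k hk) (hD l hl) (τ k) (τ l)
  refine h1.congr' ?_ (EventuallyEq.refl _ _)
  filter_upwards [self_mem_nhdsWithin] with ε hε
  have hε' : (0 : ℝ) < ε := hε
  have h2 := E_norm_sq (sysH K) S c (fun k x => ((rq K (D k) (τ k) x : ℝ) : ℂ))
    (fun k => Module.finrank ℚ (F k)) (fun k _ x => by
      rw [Complex.norm_real, Real.norm_eq_abs]
      exact abs_rq _ _ x) hε'
  have e1 : (fun x : HX K => (∑ k ∈ S, c k * rq K (D k) (τ k) x) ^ 2) =
      fun x : HX K => ‖∑ k ∈ S, (c k : ℂ) * ((rq K (D k) (τ k) x : ℝ) : ℂ)‖ ^ 2 := by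
    funext x
    have : (∑ k ∈ S, (c k : ℂ) * ((rq K (D k) (τ k) x : ℝ) : ℂ)) =
      ((∑ k ∈ S, c k * rq K (D k) (τ k) x : ℝ) : ℂ) := by push_cast; rfl
    rw [this, Complex.norm_real, Real.norm_eq_abs, sq_abs]
  have e2 : ((sysH K).E ε fun x : HX K => (∑ k ∈ S, c k * rq K (D k) (τ k) x) ^ 2) =
      ∑ k ∈ S, ∑ l ∈ S, (c k * c l) *
        ((sysH K).E ε fun x : HX K => rq K (D k) (τ k) x * rq K (D l) (τ l) x) := by
    refine (congrArg ((sysH K).E ε) e1).trans (h2.trans ?_)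
    refine Finset.sum_congr rfl fun k _ => Finset.sum_congr rfl fun l _ => ?_
    congr 1
    congr 1
    funext x
    rw [Complex.conj_ofReal, ← Complex.ofReal_mul, Complex.ofReal_re]
  rw [e2]
  unfold qf
  rw [Finset.mul_sum, Finset.sum_mul, ← Finset.sum_sub_distrib]
  refine Finset.sum_congr rfl fun k _ => ?_
  rw [Finset.mul_sum, Finset.sum_mul, ← Finset.sum_sub_distrib]
  refine Finset.sum_congr rfl fun l _ => ?_
  ring

/-- sizes of combinations as correlations -/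
theorem size_sum {P Q : 𝓞 K} {κ : Type*} (S : Finset κ) (F : κ → Type) [∀ k, Field (F k)]
    [∀ k, NumberField (F k)] [∀ k, Algebra K (F k)] (D : ∀ k, 𝓞 (F k))
    (τ c : κ → ℝ) (X : κ → ℝ → ℝ)
    (hX : ∀ k ∈ S, (syE P Q).IsSize (F := F k) (fun _ => D k) (τ k) (X k)) :
    (fun ε => (∑ k ∈ S, c k * X k ε) * LL ε - (sysH K).E ε (fun x : HX K =>
      (tEH P Q x).re * ∑ k ∈ S, c k * rq K (D k) (τ k) x)) =o[𝓝[>] 0] LL := by
  classical
  have hcorr : ∀ k ∈ S, ∀ ε : ℝ, (syE P Q).corr (F := F k) (fun _ => D k) (τ k) ε =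
      (sysH K).E ε (fun x : HX K => (tEH P Q x).re * rq K (D k) (τ k) x) := by
    intro k _ ε
    have e3 : (syE P Q).corr (F := F k) (fun _ => D k) (τ k) ε =
        ∑ _j ∈ ({()} : Finset Unit), (sysH K).E ε fun x : HX K =>
          (tEH P Q x * conj (vq K (∏ _i ∈ ({0} : Finset (Fin 1)), D k) (τ k) x)).re := rfl
    rw [e3, Finset.sum_singleton, Finset.prod_singleton]
    congr 1
    funext x
    have e4 : tEH P Q x = (((tEH P Q x).re : ℝ) : ℂ) := by
      apply Complex.ext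
      · simp
      · rw [Complex.ofReal_im, tEH_im]
    have e5 : vq K (D k) (τ k) x = ((push K (qh (D k)) x : ℝ) : ℂ) *
      ((x.1 : ℕ) : ℂ) ^ (((τ k : ℝ) : ℂ) * I) := rfl
    rw [e4, e5, Complex.re_ofReal_mul, Complex.ofReal_re, map_mul, Complex.conj_ofReal,
      Complex.re_ofReal_mul, Complex.conj_re]
    unfold rq
    rw [cz_vx]
  have h1 : (fun ε => ∑ k ∈ S, c k * (X k ε * LL ε -
      (syE P Q).corr (F := F k) (fun _ => D k) (τ k) ε)) =o[𝓝[>] 0] LL := by
    refine fsum_isLittleO _ fun k hk => IsLittleO.const_mul_left ?_ _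
    exact hX k hk
  refine h1.congr' ?_ (EventuallyEq.refl _ _)
  filter_upwards [self_mem_nhdsWithin] with ε hε
  have hε' : (0 : ℝ) < ε := hε
  have hT : ∀ x : HX K, |(tEH P Q x).re| ≤ 2 := fun x =>
    (Complex.abs_re_le_norm _).trans (Pool.Agent.W353.AB.norm_tEH P Q x)
  have e6 : (sysH K).E ε (fun x : HX K =>
      (tEH P Q x).re * ∑ k ∈ S, c k * rq K (D k) (τ k) x) =
      ∑ k ∈ S, c k * (sysH K).E ε (fun x : HX K => (tEH P Q x).re * rq K (D k) (τ k) x) := by
    have e7 : (fun x : HX K => (tEH P Q x).re * ∑ k ∈ S, c k * rq K (D k) (τ k) x) =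
        fun x : HX K => ∑ k ∈ S, c k * ((tEH P Q x).re * rq K (D k) (τ k) x) := by
      funext x
      rw [Finset.mul_sum]
      exact Finset.sum_congr rfl fun k _ => by ring
    have e8 := (sysH K).E_sum hε' S (fun k (x : HX K) =>
      c k * ((tEH P Q x).re * rq K (D k) (τ k) x))
      (fun k => |c k| * (2 * Module.finrank ℚ (F k))) (by
        intro k hk x
        rw [abs_mul, abs_mul]
        exact mul_le_mul_of_nonneg_left (mul_le_mul (hT x) (abs_rq _ _ x) (abs_nonneg _)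
          (by norm_num)) (abs_nonneg _))
    refine (congrArg ((sysH K).E ε) e7).trans (e8.trans ?_)
    exact Finset.sum_congr rfl fun k _ => (sysH K).E_const_mul _ _
  rw [e6, Finset.sum_mul, ← Finset.sum_sub_distrib]
  refine Finset.sum_congr rfl fun k hk => ?_
  rw [hcorr k hk ε]
  ring

end

end Pool.Agent.Y684.L2
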