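import Pool.Agent.Y684.L2.Edge
import Pool.Agent.TH940.Inst

/-! The curve `X_0(14)`. -/

set_option autoImplicit false
set_option linter.unusedSectionVars false

namespace Pool.Agent.Y684.L2.Edge

open NumberField IsDedekindDomain
open Pool.Agent.TH322.BC.Edge (MinimalModels)
open Pool.Agent.W97.MT (E14 ap affCount form14)

theorem exists_minimalModels {K : Type} [Field K] [NumberField K] (W : WeierstrassCurve (𝓞 K))
    (hΔ : W.Δ ≠ 0) : ∃ V : HeightOneSpectrum (𝓞 K) → WeierstrassCurve (𝓞 K),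
      MinimalModels (W.map (algebraMap (𝓞 K) K)) V ∧ ∀ v, W.Δ ∉ v.asIdeal → V v = W := by
  classical
  have key : ∀ v : HeightOneSpectrum (𝓞 K), ∃ V : WeierstrassCurve (𝓞 K),
      ((∃ C : WeierstrassCurve.VariableChange K,
        C • (W.map (algebraMap (𝓞 K) K)) = V.map (algebraMap (𝓞 K) K)) ∧
      ∀ W' : WeierstrassCurve (𝓞 K),
        (∃ C : WeierstrassCurve.VariableChange K,
          C • (W.map (algebraMap (𝓞 K) K)) = W'.map (algebraMap (𝓞 K) K)) →
        ∀ n : ℕ, V.Δ ∈ v.asIdeal ^ n → W'.Δ ∈ v.asIdeal ^ n) ∧ (W.Δ ∉ v.asIdeal → V = W) := by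
    intro v
    have hself : ∃ C : WeierstrassCurve.VariableChange K,
        C • (W.map (algebraMap (𝓞 K) K)) = W.map (algebraMap (𝓞 K) K) := ⟨1, one_smul _ _⟩
    by_cases hv : W.Δ ∈ v.asIdeal
    · have hex : ∃ n : ℕ, ∃ V : WeierstrassCurve (𝓞 K),
          (∃ C : WeierstrassCurve.VariableChange K,
            C • (W.map (algebraMap (𝓞 K) K)) = V.map (algebraMap (𝓞 K) K)) ∧
          V.Δ ∉ v.asIdeal ^ (n + 1) := by
        by_contra hcon
        push_neg at hcon
        have h1 : ∀ n : ℕ, W.Δ ∈ v.asIdeal ^ n := by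
          intro n
          cases n with
          | zero => rw [pow_zero, Ideal.one_eq_top]; trivial
          | succ n => exact hcon n W hself
        have h2 : (⨅ i : ℕ, v.asIdeal ^ i) = ⊥ :=
          Ideal.iInf_pow_eq_bot_of_isDomain _ v.isPrime.ne_top
        have h3 : W.Δ ∈ (⨅ i : ℕ, v.asIdeal ^ i) := by
          rw [Ideal.mem_iInf]
          exact h1
        rw [h2] at h3
        exact hΔ (by simpa using h3)
      obtain ⟨V, hV1, hV2⟩ := Nat.find_spec hex
      refine ⟨V, ⟨hV1, fun W' hW' n hn => ?_⟩, fun h => absurd hv h⟩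
      by_contra hcon
      have hn1 : n ≤ Nat.find hex := by
        by_contra hlt
        push_neg at hlt
        exact hV2 (Ideal.pow_le_pow_right hlt hn)
      cases n with
      | zero =>
        apply hcon
        rw [pow_zero, Ideal.one_eq_top]
        trivial
      | succ n => exact Nat.find_min hex (by omega : n < Nat.find hex) ⟨W', hW', hcon⟩
    · refine ⟨W, ⟨hself, fun W' _ n hn => ?_⟩, fun _ => rfl⟩
      cases n with
      | zero => rw [pow_zero, Ideal.one_eq_top]; trivial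
      | succ n => exact absurd (Ideal.pow_le_self (by omega) hn) hv
  choose V hV using key
  exact ⟨V, fun v => (hV v).1, fun v => (hV v).2⟩

theorem residue (v : HeightOneSpectrum (𝓞 ℚ)) : ∃ p : ℕ, p.Prime ∧
    Ideal.absNorm v.asIdeal = p ∧ Nonempty (𝓞 ℚ ⧸ v.asIdeal ≃+* ZMod p) := by
  set e : 𝓞 ℚ ≃+* ℤ := Rat.ringOfIntegersEquiv with he
  set I : Ideal ℤ := v.asIdeal.map (e : 𝓞 ℚ →+* ℤ) with hI
  have hIp : I.IsPrime := Ideal.map_isPrime_of_equiv e
  have hI0 : I ≠ ⊥ := by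
    intro h
    have := (Ideal.map_eq_bot_iff_of_injective (f := (e : 𝓞 ℚ →+* ℤ)) e.injective).1 h
    exact v.ne_bot this
  obtain ⟨n, hn⟩ : ∃ n : ℤ, I = Ideal.span {n} := (IsPrincipalIdealRing.principal I).principal
  have hn0 : n ≠ 0 := by
    rintro rfl
    apply hI0
    rw [hn]
    simp
  have hnp : Prime n := (Ideal.span_singleton_prime hn0).1 (hn ▸ hIp)
  have hp : n.natAbs.Prime := Int.prime_iff_natAbs_prime.1 hnp
  have hI' : I = Ideal.span {((n.natAbs : ℕ) : ℤ)} := by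
    rw [hn, Int.span_natAbs]
  have E1 : (𝓞 ℚ ⧸ v.asIdeal) ≃+* (ℤ ⧸ I) := Ideal.quotientEquiv v.asIdeal I e hI
  have E2 : (ℤ ⧸ I) ≃+* (ℤ ⧸ Ideal.span {((n.natAbs : ℕ) : ℤ)}) := Ideal.quotEquivOfEq hI'
  have E3 : (ℤ ⧸ Ideal.span {((n.natAbs : ℕ) : ℤ)}) ≃+* ZMod n.natAbs :=
    Int.quotientSpanNatEquivZMod _
  have E : (𝓞 ℚ ⧸ v.asIdeal) ≃+* ZMod n.natAbs := (E1.trans E2).trans E3
  refine ⟨n.natAbs, hp, ?_, ⟨E⟩⟩
  rw [Ideal.absNorm_apply, Submodule.cardQuot_apply]
  have h1 : Nat.card (𝓞 ℚ ⧸ v.asIdeal) = Nat.card (ZMod n.natAbs) := Nat.card_congr E.toEquiv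
  rw [Nat.card_zmod] at h1
  exact h1

/-- `X_0(14)`: `y² + xy + y = x³ + 4x - 6` -/
def X14 : WeierstrassCurve ℚ := ⟨1, 0, 1, 4, -6⟩

theorem X14_elliptic : X14.IsElliptic := by
  rw [WeierstrassCurve.isElliptic_iff]
  unfold X14 WeierstrassCurve.Δ WeierstrassCurve.b₂ WeierstrassCurve.b₄ WeierstrassCurve.b₆
    WeierstrassCurve.b₈
  norm_num

theorem hecke14 : Pool.Agent.TH941.Hecke form14 := by
  obtain ⟨h1, h2, h3, h4⟩ := Pool.Agent.TH940.Inst.facts
  refine ⟨h2, fun n => ?_, fun m n h => Pool.Agent.TH940.Inst.mul m n h,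
    fun p j hp => Pool.Agent.TH940.Inst.pow p j hp, fun p hp hN => ?_,
    fun p hp hN => Pool.Agent.TH940.Inst.bad p hp hN⟩
  · obtain ⟨c, hc⟩ := h1 n
    show ((UpperHalfPlane.qExpansion 1 form14).coeff n).im = 0
    rw [hc, Complex.intCast_im]
  · exact Pool.Agent.TH940.Inst.good p hp (by rintro rfl; exact hN (by norm_num))

/-- the model over the integers of `ℚ` -/
def M14 : WeierstrassCurve (𝓞 ℚ) := ⟨1, 0, 1, 4, -6⟩

theorem M14_map : M14.map (algebraMap (𝓞 ℚ) ℚ) = X14 := by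
  unfold M14 X14 WeierstrassCurve.map
  simp only [map_one, map_zero, map_neg, map_ofNat]

theorem coeff14 (V : HeightOneSpectrum (𝓞 ℚ) → WeierstrassCurve (𝓞 ℚ))
    (v : HeightOneSpectrum (𝓞 ℚ)) (hV : V v = M14) :
    coefficient V v = ap E14 (Ideal.absNorm v.asIdeal) := by
  obtain ⟨p, hp, hn, ⟨e⟩⟩ := residue v
  unfold coefficient ap affCount
  rw [hn, hV]
  congr 2
  refine Nat.card_congr ((e.toEquiv.prodCongr e.toEquiv).subtypeEquiv fun x => ?_)
  rw [WeierstrassCurve.Affine.equation_iff]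
  simp only [E14, M14, WeierstrassCurve.map, map_one, map_zero, map_neg, map_ofNat,
    Equiv.prodCongr_apply, Prod.map_fst, Prod.map_snd, RingEquiv.toEquiv_eq_coe, EquivLike.coe_coe]
  constructor
  · intro h
    have h1 := congrArg e h
    simp only [map_add, map_mul, map_pow, map_one, map_zero, map_neg, map_ofNat] at h1
    exact h1
  · intro h
    apply e.injective
    simp only [map_add, map_mul, map_pow, map_one, map_zero, map_neg, map_ofNat]
    exact h

theorem modular14 : Modular X14 := by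
  have hΔ : M14.Δ ≠ 0 := by
    intro h
    have h1 := congrArg (algebraMap (𝓞 ℚ) ℚ) h
    rw [map_zero, ← WeierstrassCurve.map_Δ, M14_map] at h1
    have := X14_elliptic
    exact (WeierstrassCurve.isUnit_Δ X14).ne_zero h1
  obtain ⟨V, hV, hV'⟩ := exists_minimalModels M14 hΔ
  rw [M14_map] at hV
  refine ⟨V, hV, 14, ⟨by norm_num⟩, form14, hecke14, ?_⟩
  refine (Pool.Agent.H341R2.EC.finite_mem hΔ).subset fun v hv => ?_
  by_contra hcon
  apply hv
  obtain ⟨p, hp, hn, -⟩ := residue v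
  obtain ⟨-, -, h3, -⟩ := Pool.Agent.TH940.Inst.facts
  rw [coeff14 V v (hV' v hcon), hn]
  exact h3 p hp

end Pool.Agent.Y684.L2.Edge
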