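import Pool.Agent.Y684.L2.Square

/-! The inequality for the sizes of the twists over extension fields. -/

set_option autoImplicit false
set_option linter.unusedSectionVars false

namespace Pool.Agent.Y684.L2

open Complex Filter Topology ComplexConjugate NumberField IsDedekindDomain Asymptotics
open Pool.Agent.W401.Cheb (GK)
open Pool.Agent.W353.NF (vx nm_vx isMinAt_one tEH_im act kap kap_pos)
open Pool.Agent.W353.TP (HX sysH LL LL_tendsto bdd_isLittleO lam0_sub E_mono abs_E_le E_H EH_eq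
  card_hom_eq inum)
open Pool.Agent.W353.AB (tEH tE tE_ker norm_tEH norm_tE syE)
open Pool.Agent.H341R2 (sysK NormSys)
open Pool.Agent.H341R2.EC (trc csumv count_good IsMinAt aff red finite_mem csumv_bound)
open Pool.Agent.TH322.BC (kerD kerD_open)
open Pool.Agent.TH322.BC.Edge (MinimalModels LimsupLE TwistOver size HasOrder size_twist size_base
  orders lim_abs_le coe_ne)
open scoped TensorProduct

section
variable {K : Type} [Field K] [NumberField K] {P Q : 𝓞 K}

theorem re_le (x : HX K) : |(tEH P Q x).re| ≤ 2 :=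
  (Complex.abs_re_le_norm _).trans (norm_tEH P Q x)

/-- **The inequality.** -/
theorem gen (hMS : ∀ η : ℝ, 0 < η → ∀ᶠ ε : ℝ in 𝓝[>] 0,
      (sysH K).E ε (fun x => (tEH P Q x).re ^ 2) ≤ (1 + η) * LL ε)
    {κ : Type*} (S : Finset κ) (F : κ → Type) [∀ k, Field (F k)]
    [∀ k, NumberField (F k)] [∀ k, Algebra K (F k)] (D : ∀ k, 𝓞 (F k)) (hD : ∀ k ∈ S, D k ≠ 0)
    (τ c : κ → ℝ) (X : κ → ℝ → ℝ)
    (hX : ∀ k ∈ S, (syE P Q).IsSize (F := F k) (fun _ => D k) (τ k) (X k)) :
    LimsupLE (fun ε => ∑ k ∈ S, c k * X k ε) (Real.sqrt (qf (K := K) S F D τ c)) := by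
  classical
  intro η hη
  set Q' := qf (K := K) S F D τ c with hQ'
  have hsz := size_sum (K := K) (P := P) (Q := Q) S F D τ c X hX
  have hms := mean_sq (K := K) S F D hD τ c
  have hW : ∀ x : HX K, |∑ k ∈ S, c k * rq K (D k) (τ k) x| ≤
      ∑ k ∈ S, |c k| * (Module.finrank ℚ (F k) : ℝ) := by
    intro x
    refine (Finset.abs_sum_le_sum_abs _ _).trans (Finset.sum_le_sum fun k _ => ?_)
    rw [abs_mul]
    exact mul_le_mul_of_nonneg_left (abs_rq _ _ x) (abs_nonneg _)
  have hQle : ∀ R : ℝ, Q' ≤ R → ∀ η : ℝ, 0 < η → ∀ᶠ ε : ℝ in 𝓝[>] 0,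
      (sysH K).E ε (fun x : HX K => (∑ k ∈ S, c k * rq K (D k) (τ k) x) ^ 2) ≤ (R + η) * LL ε := by
    intro R hR η hη
    filter_upwards [isLittleO_iff.1 hms hη, LL_tendsto.eventually_gt_atTop 0] with ε h1 h2
    rw [Real.norm_eq_abs, Real.norm_eq_abs, abs_of_pos h2] at h1
    have h3 := (abs_le.1 h1).2
    nlinarith
  have hpen : ∀ (lm : ℝ), 0 < lm → ∀ η : ℝ, 0 < η → ∀ᶠ ε : ℝ in 𝓝[>] 0, (0 - η) * LL ε ≤
      (sysH K).E ε (fun x : HX K => pen lm (∑ k ∈ S, c k * rq K (D k) (τ k) x)) := by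
    intro lm _ η hη
    filter_upwards [LL_tendsto.eventually_gt_atTop 0] with ε h2
    have h3 : 0 ≤ (sysH K).E ε (fun x : HX K => pen lm (∑ k ∈ S, c k * rq K (D k) (τ k) x)) :=
      (sysH K).E_nonneg fun x => pen_nonneg _ _
    nlinarith
  by_cases hpos : 0 < Q'
  · have hs : 0 < Real.sqrt Q' := Real.sqrt_pos.2 hpos
    have h1 := limsup_huber (sysH K) hs (fun x => re_le x) hW hMS (hQle Q' le_rfl)
      (hpen _ hs) hsz hη
    refine h1.mono fun ε hε => hε.trans ?_
    have e : (Real.sqrt Q')⁻¹ * Q' = Real.sqrt Q' := by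
      nth_rewrite 2 [← Real.mul_self_sqrt hpos.le]
      rw [← mul_assoc, inv_mul_cancel₀ hs.ne', one_mul]
    rw [sub_zero, e]
    linarith
  · have h1 := limsup_huber (sysH K) hη (fun x => re_le x) hW hMS (hQle 0 (not_lt.1 hpos))
      (hpen _ hη) hsz (half_pos hη)
    refine h1.mono fun ε hε => hε.trans ?_
    rw [Real.sqrt_eq_zero_of_nonpos (not_lt.1 hpos)]
    have e : 2⁻¹ * (η + η⁻¹ * (0 - 0)) = η / 2 := by ring
    rw [e]
    linarith

/-- **The strict inequality.** -/
theorem strict (hMS : ∀ η : ℝ, 0 < η → ∀ᶠ ε : ℝ in 𝓝[>] 0,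
      (sysH K).E ε (fun x => (tEH P Q x).re ^ 2) ≤ (1 + η) * LL ε)
    {κ : Type*} (S : Finset κ) (F : κ → Type) [∀ k, Field (F k)]
    [∀ k, NumberField (F k)] [∀ k, Algebra K (F k)] (D : ∀ k, 𝓞 (F k)) (hD : ∀ k, D k ≠ 0)
    [Finite κ] (τ : ℝ) (c : κ → ℝ) (X : κ → ℝ → ℝ)
    (hX : ∀ k ∈ S, (syE P Q).IsSize (F := F k) (fun _ => D k) τ (X k))
    (hpos : 0 < qf (K := K) S F D (fun _ => τ) c)
    (hlt : 2 * Real.sqrt (qf (K := K) S F D (fun _ => τ) c) <
      kap τ * |∑ k ∈ S, c k * (Module.finrank K (F k) : ℝ)|) :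
    ∃ B < Real.sqrt (qf (K := K) S F D (fun _ => τ) c),
      LimsupLE (fun ε => ∑ k ∈ S, c k * X k ε) B := by
  classical
  set Q' := qf (K := K) S F D (fun _ => τ) c with hQ'
  have hs : 0 < Real.sqrt Q' := Real.sqrt_pos.2 hpos
  set n : ℝ := ∑ k ∈ S, c k * (Module.finrank K (F k) : ℝ) with hn
  set U : Subgroup (GK K) := ⨅ k : κ, kerD K (D k : F k) with hU
  have hUn : U.Normal := Subgroup.normal_iInf_normal fun k => inferInstance
  have hUo : IsOpen (U : Set (GK K)) := by
    rw [hU, Subgroup.coe_iInf]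
    exact isOpen_iInter_of_finite fun k => kerD_open _
  have hfin : Finite (GK K ⧸ U) := Subgroup.quotient_finite_of_isOpen _ hUo
  have hker : ∀ k ∈ S, ∀ u ∈ U, act K (F k) u = 1 ∧
      ∀ i : F k →ₐ[K] AlgebraicClosure K, ∀ s : AlgebraicClosure K, s ^ 2 = i (D k) → u s = s := by
    intro k _ u hu
    exact (Subgroup.mem_iInf.1 hu) k
  set δ : ℝ := (Nat.card (GK K ⧸ U) : ℝ)⁻¹ * (kap τ * |n| - 2 * Real.sqrt Q') ^ 2 with hδ
  have hg : (0 : ℝ) < (Nat.card (GK K ⧸ U) : ℝ)⁻¹ := by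
    rw [inv_pos]
    exact_mod_cast Nat.card_pos
  have hδ0 : 0 < δ := mul_pos hg (pow_pos (by linarith) 2)
  refine ⟨2⁻¹ * (Real.sqrt Q' + (Real.sqrt Q')⁻¹ * (Q' - δ)), ?_, fun η hη => ?_⟩
  · have e : (Real.sqrt Q')⁻¹ * (Q' - δ) = Real.sqrt Q' - (Real.sqrt Q')⁻¹ * δ := by
      nth_rewrite 2 [← Real.mul_self_sqrt hpos.le]
      rw [mul_sub, ← mul_assoc, inv_mul_cancel₀ hs.ne', one_mul]
    rw [e]
    have : 0 < (Real.sqrt Q')⁻¹ * δ := mul_pos (inv_pos.2 hs) hδ0
    linarith
  · have hsz := size_sum (K := K) (P := P) (Q := Q) S F D (fun _ => τ) c X hX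
    have hms := mean_sq (K := K) S F D (fun k _ => hD k) (fun _ => τ) c
    have hW : ∀ x : HX K, |∑ k ∈ S, c k * rq K (D k) τ x| ≤
        ∑ k ∈ S, |c k| * (Module.finrank ℚ (F k) : ℝ) := by
      intro x
      refine (Finset.abs_sum_le_sum_abs _ _).trans (Finset.sum_le_sum fun k _ => ?_)
      rw [abs_mul]
      exact mul_le_mul_of_nonneg_left (abs_rq _ _ x) (abs_nonneg _)
    have hQle : ∀ η : ℝ, 0 < η → ∀ᶠ ε : ℝ in 𝓝[>] 0,
        (sysH K).E ε (fun x : HX K => (∑ k ∈ S, c k * rq K (D k) τ x) ^ 2) ≤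
          (Q' + η) * LL ε := by
      intro η hη
      filter_upwards [isLittleO_iff.1 hms hη, LL_tendsto.eventually_gt_atTop 0] with ε h1 h2
      rw [Real.norm_eq_abs, Real.norm_eq_abs, abs_of_pos h2] at h1
      have h3 := (abs_le.1 h1).2
      nlinarith
    exact limsup_huber (sysH K) hs (fun x => re_le x) hW hMS hQle
      (fun η hη => pen_lower U hUo S F D (fun k _ => hD k) hker τ c hs
        (by linarith) hη) hsz hη

end

/-! two fields -/

section
variable (K F : Type) [Field K] [NumberField K] [Field F] [NumberField F] [Algebra K F]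

/-- the family of the two fields -/
def fam : Bool → Type
  | true => F
  | false => K

noncomputable instance famField : ∀ b, Field (fam K F b)
  | true => inferInstanceAs (Field F)
  | false => inferInstanceAs (Field K)

instance famNF : ∀ b, NumberField (fam K F b)
  | true => inferInstanceAs (NumberField F)
  | false => inferInstanceAs (NumberField K)

noncomputable instance famAlg : ∀ b, Algebra K (fam K F b)
  | true => inferInstanceAs (Algebra K F)
  | false => inferInstanceAs (Algebra K K)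

/-- the number of the simple factors of a tensor product -/
theorem inum_one {F' : Type} [Field F'] [NumberField F'] [Algebra K F'] :
    inum K F F' (1 : F) (1 : F') = Nat.card (MaximalSpectrum (F ⊗[K] F')) := by
  unfold inum
  refine Nat.card_congr
    { toFun := fun m => m.1
      invFun := fun m => ⟨m, ?_⟩
      left_inv := fun m => rfl
      right_inv := fun m => rfl }
  have h : (1 : F) ⊗ₜ[K] (1 : F') = 1 := rfl
  rw [h, map_one]
  exact IsSquare.one

theorem card_max_field {R : Type*} [CommRing R] (h : IsField R) :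
    Nat.card (MaximalSpectrum R) = 1 := by
  have hb : ∀ m : MaximalSpectrum R, m.asIdeal = ⊥ := fun m =>
    (let _ := h.toField; (Ideal.eq_bot_or_top m.asIdeal).resolve_right m.isMaximal.ne_top)
  have : Unique (MaximalSpectrum R) :=
    { default := ⟨⊥, by let _ := h.toField; exact Ideal.bot_isMaximal⟩
      uniq := fun m => MaximalSpectrum.ext (hb m) }
  exact Nat.card_unique

theorem card_base : Nat.card (MaximalSpectrum (F ⊗[K] K)) = 1 :=
  card_max_field ((Algebra.TensorProduct.rid K K F).toMulEquiv.isField (Field.toIsField F))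

theorem card_base' : Nat.card (MaximalSpectrum (K ⊗[K] F)) = 1 :=
  card_max_field ((Algebra.TensorProduct.lid K F).toMulEquiv.isField (Field.toIsField F))

end

end Pool.Agent.Y684.L2
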