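import Pool.Agent.Y684.L2.Strict
import Pool.Agent.TH941.Newform

/-! Mean squares of the coefficients. -/

set_option autoImplicit false
set_option linter.unusedSectionVars false

namespace Pool.Agent.Y684.L2

open Complex Filter Topology ComplexConjugate NumberField IsDedekindDomain Asymptotics
open Pool.Agent.W353.NF (vx nm_vx isMinAt_one tEH_im)
open Pool.Agent.W353.TP (HX sysH LL LL_tendsto bdd_isLittleO lam0_sub E_mono abs_E_le E_H EH_eq
  card_hom_eq)
open Pool.Agent.W353.AB (tEH tE tE_ker norm_tEH norm_tE)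
open Pool.Agent.H341R2 (lam lam_tendsto sysK NormSys E E_add lam_bounded R_rat)
open Pool.Agent.H341R2.EC (trc csumv count_good twist IsMinAt aff red finite_mem csumv_bound)
open Pool.Agent.TH322.BC.Edge (MinimalModels LimsupLE)
open Pool.Agent.H921R2.TatePole (nm two_le_nm R)

section
variable {K : Type} [Field K] [NumberField K]

/-- the mean square of the normalised coefficients is at most one -/
def MeanSq (V : HeightOneSpectrum (𝓞 K) → WeierstrassCurve (𝓞 K)) : Prop :=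
  ∀ η : ℝ, 0 < η → ∀ᶠ ε : ℝ in 𝓝[>] 0,
    ∑' v : HeightOneSpectrum (𝓞 K), (trc V v : ℝ) ^ 2 * ((Ideal.absNorm v.asIdeal : ℕ) : ℝ) ^ (-(2 + ε)) ≤
      (1 + η) * Real.log (1 / ε)

theorem chi_one_v (v : HeightOneSpectrum (𝓞 K)) : Pool.Agent.H341R2.chi (1 : 𝓞 K) v = 1 := by
  unfold Pool.Agent.H341R2.chi
  simp

variable {E₀ : WeierstrassCurve K} {l P Q : 𝓞 K} (hl : l ≠ 0)
    (hP : (P : K) = (l : K) ^ 4 * E₀.c₄) (hQ : (Q : K) = (l : K) ^ 6 * E₀.c₆)
    (hD : P ^ 3 - Q ^ 2 ≠ 0)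

include hl hP hQ in
theorem trc_good {V : HeightOneSpectrum (𝓞 K) → WeierstrassCurve (𝓞 K)}
    (hV : MinimalModels E₀ V) {v : HeightOneSpectrum (𝓞 K)} (h6 : (6 : 𝓞 K) ∉ v.asIdeal)
    (h : P ^ 3 - Q ^ 2 ∉ v.asIdeal) : trc V v = -csumv P Q v := by
  have h1 : ((1 : 𝓞 K) : K) = 1 := map_one (algebraMap (𝓞 K) K)
  have h2 : IsMinAt (twist E₀ ((1 : 𝓞 K) : K)) v (V v) := by
    rw [h1]
    exact isMinAt_one _ v (V v) (hV v)
  have h3 := (count_good hl hP hQ h2 h6 (fun h => v.isPrime.ne_top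
    ((Ideal.eq_top_iff_one _).2 h)) h).2
  unfold trc
  rw [h3, chi_one_v]
  ring

include hl hP hQ hD in
/-- the squares of the coefficients are bounded -/
theorem trc_sq_bdd {V : HeightOneSpectrum (𝓞 K) → WeierstrassCurve (𝓞 K)}
    (hV : MinimalModels E₀ V) : ∃ B : ℝ, ∀ v, |(trc V v : ℝ) ^ 2 * ((nm v : ℕ) : ℝ)⁻¹| ≤ B := by
  classical
  have h60 : (6 : 𝓞 K) ≠ 0 := by norm_num
  have hfin := (finite_mem h60).union (finite_mem hD)
  refine ⟨4 + ∑ v ∈ hfin.toFinset, ((nm v : ℕ) : ℝ), fun v => ?_⟩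
  have hq : (0 : ℝ) < ((nm v : ℕ) : ℝ) := by
    have := two_le_nm v
    exact_mod_cast (by omega : 0 < nm v)
  rw [abs_of_nonneg (by positivity)]
  by_cases h : (6 : 𝓞 K) ∈ v.asIdeal ∨ P ^ 3 - Q ^ 2 ∈ v.asIdeal
  · have hmem : v ∈ hfin.toFinset := by
      rw [Set.Finite.mem_toFinset]
      exact h
    have h1 : |trc V v| ≤ nm v := Pool.Agent.H341R2.EC.trc_le V v
    have h2 : |(trc V v : ℝ)| ≤ ((nm v : ℕ) : ℝ) := by exact_mod_cast h1
    have h3 : (trc V v : ℝ) ^ 2 ≤ ((nm v : ℕ) : ℝ) ^ 2 := by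
      rw [← sq_abs]
      exact pow_le_pow_left₀ (abs_nonneg _) h2 2
    have h4 : (trc V v : ℝ) ^ 2 * ((nm v : ℕ) : ℝ)⁻¹ ≤ ((nm v : ℕ) : ℝ) := by
      rw [← div_eq_mul_inv, div_le_iff₀ hq]
      linarith [h3, sq ((nm v : ℕ) : ℝ)]
    have h5 : ((nm v : ℕ) : ℝ) ≤ ∑ v ∈ hfin.toFinset, ((nm v : ℕ) : ℝ) :=
      Finset.single_le_sum (f := fun v : HeightOneSpectrum (𝓞 K) => ((nm v : ℕ) : ℝ))
        (fun _ _ => Nat.cast_nonneg _) hmem
    linarith
  · push Not at h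
    rw [trc_good hl hP hQ hV h.1 h.2]
    have h1 := csumv_bound (P := P) (Q := Q) h.1 h.2
    have h2 : (((-csumv P Q v : ℤ) : ℝ)) ^ 2 ≤ 4 * ((nm v : ℕ) : ℝ) := by
      push_cast
      rw [neg_sq, ← sq_abs]
      calc |(csumv P Q v : ℝ)| ^ 2 ≤ (2 * Real.sqrt (nm v)) ^ 2 :=
            pow_le_pow_left₀ (abs_nonneg _) h1 2
        _ = 4 * ((nm v : ℕ) : ℝ) := by
            rw [mul_pow, Real.sq_sqrt hq.le]
            norm_num
    have h3 : (((-csumv P Q v : ℤ) : ℝ)) ^ 2 * ((nm v : ℕ) : ℝ)⁻¹ ≤ 4 := by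
      rw [← div_eq_mul_inv, div_le_iff₀ hq]
      exact h2
    have h5 : 0 ≤ ∑ v ∈ hfin.toFinset, ((nm v : ℕ) : ℝ) :=
      Finset.sum_nonneg fun _ _ => Nat.cast_nonneg _
    linarith

theorem tsum_eq_E (V : HeightOneSpectrum (𝓞 K) → WeierstrassCurve (𝓞 K)) (ε : ℝ) :
    ∑' v : HeightOneSpectrum (𝓞 K), (trc V v : ℝ) ^ 2 *
      ((Ideal.absNorm v.asIdeal : ℕ) : ℝ) ^ (-(2 + ε)) =
    (sysK K).E ε (fun v => (trc V v : ℝ) ^ 2 * ((nm v : ℕ) : ℝ)⁻¹) := by
  unfold NormSys.E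
  refine tsum_congr fun v => ?_
  have hq : (0 : ℝ) < ((nm v : ℕ) : ℝ) := by
    have := two_le_nm v
    exact_mod_cast (by omega : 0 < nm v)
  change (trc V v : ℝ) ^ 2 * ((nm v : ℕ) : ℝ) ^ (-(2 + ε)) =
    (trc V v : ℝ) ^ 2 * ((nm v : ℕ) : ℝ)⁻¹ * ((nm v : ℕ) : ℝ) ^ (-(1 + ε))
  have e : -(2 + ε) = -(1 + ε) - 1 := by ring
  rw [e, Real.rpow_sub_one hq.ne']
  ring

include hl hP hQ hD in
/-- the mean square over the homomorphisms to prime fields -/
theorem ms_of_meanSq {V : HeightOneSpectrum (𝓞 K) → WeierstrassCurve (𝓞 K)}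
    (hV : MinimalModels E₀ V) (h : MeanSq V) {η : ℝ} (hη : 0 < η) :
    ∀ᶠ ε : ℝ in 𝓝[>] 0, (sysH K).E ε (fun x => (tEH P Q x).re ^ 2) ≤ (1 + η) * LL ε := by
  classical
  obtain ⟨B, hB⟩ := trc_sq_bdd hl hP hQ hD hV
  set g : HeightOneSpectrum (𝓞 K) → ℝ := fun v => (tE P Q v).re ^ 2 with hg
  have hgb : ∀ v, |g v| ≤ 4 := by
    intro v
    rw [hg]
    simp only
    rw [abs_pow]
    calc |(tE P Q v).re| ^ 2 ≤ 2 ^ 2 := pow_le_pow_left₀ (abs_nonneg _)
          ((Complex.abs_re_le_norm _).trans (norm_tE P Q v)) 2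
      _ = 4 := by norm_num
  have hgx : ∀ x : HX K, (tEH P Q x).re ^ 2 =
      g (Pool.Agent.H921R2.TatePole.kerPrime x.1 x.2).1.1 := by
    rintro ⟨p, φ⟩
    have h1 := tE_ker (RingHom.id (𝓞 K)) P Q p φ
    rw [RingHom.comp_id] at h1
    rw [← h1]
    rfl
  have hle : ∀ v, g v ≤ (trc V v : ℝ) ^ 2 * ((nm v : ℕ) : ℝ)⁻¹ := by
    intro v
    have hq : (0 : ℝ) < ((nm v : ℕ) : ℝ) := by
      have := two_le_nm v
      exact_mod_cast (by omega : 0 < nm v)
    rw [hg]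
    simp only
    unfold tE
    split_ifs with h1
    · have e1 : -(csumv P Q v : ℂ) * ((Real.sqrt (nm v) : ℝ) : ℂ)⁻¹ =
          ((-(csumv P Q v : ℝ) * (Real.sqrt (nm v))⁻¹ : ℝ) : ℂ) := by
        push_cast
        rfl
      rw [e1, Complex.ofReal_re, trc_good hl hP hQ hV h1.1 h1.2, mul_pow, inv_pow,
        Real.sq_sqrt hq.le]
      push_cast
      exact le_rfl
    · rw [Complex.zero_re, zero_pow two_ne_zero]
      positivity
  set C : ℝ := 4 * Module.finrank ℚ K * Pool.Agent.H921R2.TatePole.C0 with hC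
  have hsmall := isLittleO_iff.1 (bdd_isLittleO (u := fun _ => |C|)
    ⟨|(|C|)|, Eventually.of_forall fun _ => le_rfl⟩) (c := η / 2) (by positivity)
  filter_upwards [h (η / 2) (by positivity), hsmall, LL_tendsto.eventually_gt_atTop 0,
    self_mem_nhdsWithin] with ε h1 h2 h3 h4
  have hε : (0 : ℝ) < ε := h4
  rw [Real.norm_eq_abs, Real.norm_eq_abs, abs_of_pos h3, abs_abs] at h2
  rw [tsum_eq_E] at h1
  have h5 : (sysK K).E ε g ≤ (sysK K).E ε (fun v => (trc V v : ℝ) ^ 2 * ((nm v : ℕ) : ℝ)⁻¹) :=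
    E_mono (sysK K) hε hgb hB hle
  have h6 := E_H (K := K) hgb hε
  have h7 : (sysH K).E ε (fun x => (tEH P Q x).re ^ 2) = (sysH K).E ε (fun x : HX K =>
      g (Pool.Agent.H921R2.TatePole.kerPrime x.1 x.2).1.1) := by
    congr 1
    funext x
    exact hgx x
  rw [h7]
  have h8 := (abs_le.1 h6).1
  have h9 : Real.log (1 / ε) = LL ε := rfl
  rw [h9] at h1
  have h10 := le_abs_self C
  have e : (1 + η) * LL ε = (1 + η / 2) * LL ε + η / 2 * LL ε := by ring
  rw [e]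
  linarith

end

section
open Pool.Agent.TH941 (Hecke cr gg)
open Pool.Agent.W165.RS (ac)
open CongruenceSubgroup
open scoped MatrixGroups

variable {N : ℕ} [NeZero N] {f : CuspForm (Gamma0 N : Subgroup (GL (Fin 2) ℝ)) 2}

theorem gg_bdd (hf : Hecke f) (p : Nat.Primes) : |gg f p - 1| ≤ 4 := by
  have h1 := hf.ps.le p
  have h2 : cr f p = (gg f p - 1) / (p : ℕ) := by
    unfold cr
    rw [if_pos p.2]
  have hp : (0 : ℝ) < ((p : ℕ) : ℝ) := by exact_mod_cast p.2.pos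
  rw [h2, abs_div, Nat.abs_cast, div_le_div_iff_of_pos_right hp] at h1
  exact h1

theorem sum_cr (hf : Hecke f) (ε : ℝ) :
    ∑' n : ℕ, cr f n * (n : ℝ) ^ (-ε) = E ε (fun p : Nat.Primes => gg f p - 1) := by
  have h1 : Function.support (fun n : ℕ => cr f n * (n : ℝ) ^ (-ε)) ⊆ {n : ℕ | n.Prime} := by
    intro n hn
    by_contra h
    apply hn
    simp only
    rw [hf.ps.np n h, zero_mul]
  rw [← tsum_subtype_eq_of_support_subset h1]
  unfold E
  refine tsum_congr fun p => ?_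
  have hp' : (p : ℕ).Prime := p.2
  have hp : (0 : ℝ) < ((p : ℕ) : ℝ) := by exact_mod_cast hp'.pos
  have h2 : cr f p = (gg f p - 1) / (p : ℕ) := by
    unfold cr
    rw [if_pos hp']
  rw [h2]
  have e : -(1 + ε) = -ε - 1 := by ring
  rw [e, Real.rpow_sub_one hp.ne']
  ring

/-- **Rankin-Selberg for elliptic curves.** -/
theorem meanSq_of_modular {E₀ : WeierstrassCurve ℚ} (hE : E₀.IsElliptic)
    {V : HeightOneSpectrum (𝓞 ℚ) → WeierstrassCurve (𝓞 ℚ)} (hV : MinimalModels E₀ V)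
    (hf : Hecke f)
    (hfin : {v : HeightOneSpectrum (𝓞 ℚ) | ac f (Ideal.absNorm v.asIdeal) ≠ (trc V v : ℂ)}.Finite) :
    MeanSq V := by
  classical
  obtain ⟨l, P, Q, hl, hP, hQ, hD⟩ := Pool.Agent.H341R2.EC.exists_integral E₀ hE
  obtain ⟨B, hB⟩ := trc_sq_bdd hl hP hQ hD hV
  obtain ⟨C, hC⟩ := hf.cr_limit
  set t : HeightOneSpectrum (𝓞 ℚ) → ℝ := fun v => (trc V v : ℝ) ^ 2 * ((nm v : ℕ) : ℝ)⁻¹ with ht
  set h : Nat.Primes → ℝ := fun p => ∑ u : 𝓞 ℚ →+* ZMod (p : ℕ),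
    t (Pool.Agent.H921R2.TatePole.kerPrime p u).1.1 with hh
  set bad : Finset ℕ := hfin.toFinset.image fun v => nm v with hbad
  have hB0 : 0 ≤ B := (abs_nonneg _).trans (hB ((sysK ℚ).nonempty.some))
  -- the coefficients at the primes
  have hgood : ∀ p : Nat.Primes, (p : ℕ) ∉ bad → h p = gg f p := by
    intro p hp
    have h1 : ∀ u : 𝓞 ℚ →+* ZMod (p : ℕ), t (Pool.Agent.H921R2.TatePole.kerPrime p u).1.1 =
        gg f p := by
      intro u
      set v := (Pool.Agent.H921R2.TatePole.kerPrime p u).1.1 with hv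
      have hn : nm v = (p : ℕ) := Pool.Agent.H341R2.nm_kerPrime p u
      have h2 : ac f (Ideal.absNorm v.asIdeal) = (trc V v : ℂ) := by
        by_contra h3
        apply hp
        rw [hbad, Finset.mem_image]
        exact ⟨v, by rw [Set.Finite.mem_toFinset]; exact h3, hn⟩
      have h3 : ac f (p : ℕ) = (trc V v : ℂ) := by
        rw [← hn]
        exact h2
      rw [ht]
      simp only
      unfold gg
      rw [h3, hn, Complex.norm_intCast, sq_abs, div_eq_mul_inv]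
    rw [hh]
    simp only
    rw [Finset.sum_congr rfl fun u _ => h1 u, Finset.sum_const, Finset.card_univ, card_hom_eq,
      R_rat, one_smul]
  have hcard : ∀ p : Nat.Primes, Fintype.card (𝓞 ℚ →+* ZMod (p : ℕ)) = 1 := fun p => by
    rw [card_hom_eq, R_rat]
  have hhb : ∀ p, |h p| ≤ B := by
    intro p
    rw [hh]
    simp only
    refine (Finset.abs_sum_le_sum_abs _ _).trans ?_
    refine (Finset.sum_le_sum fun u _ => hB _).trans ?_
    rw [Finset.sum_const, Finset.card_univ, hcard, one_smul]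
  -- the correction
  have hdb : ∀ p : Nat.Primes, |h p - 1 + -1 * (gg f p - 1)| ≤ (B + 1) + 4 := by
    intro p
    have h1 := gg_bdd hf p
    have h2 := hhb p
    have h3 : |h p - 1| ≤ B + 1 := (abs_sub _ _).trans (by rw [abs_one]; linarith)
    refine (abs_add_le _ _).trans (add_le_add h3 ?_)
    rw [neg_one_mul, abs_neg]
    exact h1
  have hcorr : ∀ ε : ℝ, 0 < ε → |E ε (fun p : Nat.Primes => h p - 1 + -1 * (gg f p - 1))| ≤
      bad.card * ((B + 1) + 4) := by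
    intro ε hε
    have h1 : ∀ p : Nat.Primes, (p : ℕ) ∉ bad → h p - 1 + -1 * (gg f p - 1) = 0 := by
      intro p hp
      rw [hgood p hp]
      ring
    -- a finite set of primes
    have hinj : Function.Injective (fun p : Nat.Primes => (p : ℕ)) := Nat.Primes.coe_nat_injective
    set S : Finset Nat.Primes := bad.preimage (fun p : Nat.Primes => (p : ℕ)) hinj.injOn with hS
    have hcS : S.card ≤ bad.card := by
      refine Finset.card_le_card_of_injOn (fun p : Nat.Primes => (p : ℕ)) (fun p hp => ?_)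
        hinj.injOn
      exact Finset.mem_preimage.1 hp
    unfold E
    have hz : ∀ p ∉ S, (h p - 1 + -1 * (gg f p - 1)) * ((p : ℕ) : ℝ) ^ (-(1 + ε)) = 0 := by
      intro p hp
      rw [h1 p (fun h => hp (Finset.mem_preimage.2 h)), zero_mul]
    rw [tsum_eq_sum (s := S) hz]
    refine (Finset.abs_sum_le_sum_abs _ _).trans ?_
    have h2 : ∀ p ∈ S, |(h p - 1 + -1 * (gg f p - 1)) * ((p : ℕ) : ℝ) ^ (-(1 + ε))| ≤
        (B + 1) + 4 := by
      intro p _
      rw [abs_mul]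
      have hp1 : (1 : ℝ) ≤ ((p : ℕ) : ℝ) := by exact_mod_cast p.2.one_le
      have h3 : |((p : ℕ) : ℝ) ^ (-(1 + ε))| ≤ 1 := by
        rw [abs_of_nonneg (by positivity)]
        exact Real.rpow_le_one_of_one_le_of_nonpos hp1 (by linarith)
      calc _ ≤ ((B + 1) + 4) * 1 := mul_le_mul (hdb p) h3 (abs_nonneg _) (by positivity)
        _ = _ := mul_one _
    refine (Finset.sum_le_card_nsmul _ _ _ h2).trans ?_
    rw [nsmul_eq_mul]
    exact mul_le_mul_of_nonneg_right (by exact_mod_cast hcS) (by positivity)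
  intro η hη
  set C1 : ℝ := B * Module.finrank ℚ ℚ * Pool.Agent.H921R2.TatePole.C0 with hC1
  set C2 : ℝ := bad.card * ((B + 1) + 4) with hC2
  obtain ⟨C3, hC3⟩ := lam_bounded
  have hsmall := isLittleO_iff.1 (bdd_isLittleO (u := fun _ => |C1| + |C2| + |C3| + (|C| + 1))
    ⟨|(|C1| + |C2| + |C3| + (|C| + 1))|, Eventually.of_forall fun _ => le_rfl⟩) (c := η)
    (by positivity)
  have hC' := (hC.eventually_lt_const (show C < |C| + 1 by linarith [le_abs_self C]))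
  filter_upwards [hC', hsmall, LL_tendsto.eventually_gt_atTop 0, hC3, self_mem_nhdsWithin]
    with ε h1 h2 h3 h5 h4
  have hε : (0 : ℝ) < ε := h4
  rw [Real.norm_eq_abs, Real.norm_eq_abs, abs_of_pos h3, abs_of_nonneg (by positivity)] at h2
  rw [tsum_eq_E]
  change (sysK ℚ).E ε t ≤ _
  have h6 := E_H (K := ℚ) (g := t) hB hε
  have h7 : (sysH ℚ).E ε (fun x : HX ℚ =>
      t (Pool.Agent.H921R2.TatePole.kerPrime x.1 x.2).1.1) = E ε h :=
    EH_eq (K := ℚ) hε (fun x => hB _)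
  rw [h7] at h6
  rw [sum_cr hf] at h1
  have h8 : E ε h = (E ε (fun p : Nat.Primes => h p - 1 + -1 * (gg f p - 1)) +
      E ε (fun p : Nat.Primes => gg f p - 1)) + lam ε := by
    have e0 : lam ε = E ε (fun _ : Nat.Primes => (1 : ℝ)) := by
      unfold lam E
      exact tsum_congr fun p => (one_mul _).symm
    rw [e0, ← E_add hε hdb (gg_bdd hf), ← E_add hε (B := ((B + 1) + 4) + 4) (B' := 1)
      (fun p => (abs_add_le _ _).trans (add_le_add (hdb p) (gg_bdd hf p))) (fun p => by simp)]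
    congr 1
    funext p
    ring
  have h9 := (abs_le.1 h6).2
  have h10 := (abs_le.1 (hcorr ε hε)).2
  have h11 := (abs_le.1 h5).2
  have h12 : Real.log (1 / ε) = LL ε := rfl
  have h13 : LL ε = -Real.log ε := by unfold LL; rw [one_div, Real.log_inv]
  have h14 := le_abs_self C1
  have h15 := le_abs_self C2
  have h16 := le_abs_self C3
  rw [h12]
  have h17 : (sysK ℚ).E ε t ≤ E ε h + C1 := by linarith
  have h18 : (1 + η) * LL ε = LL ε + η * LL ε := by ring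
  rw [h18]
  have h19 : (sysK ℚ).E ε t ≤ C1 + C2 + (|C| + 1) + (C3 + LL ε) := by
    rw [h8] at h17
    linarith
  linarith

end

end Pool.Agent.Y684.L2
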