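import Pool.Agent.Y684.L2.Gram

/-! Lower bounds for the penalty: the primes with trivial Frobenius automorphism. -/

set_option autoImplicit false
set_option linter.unusedSectionVars false

namespace Pool.Agent.Y684.L2

open Complex Filter Topology ComplexConjugate NumberField IsDedekindDomain Asymptotics
  Pool.Agent.W401.Cheb Pool.Agent.W540.BE Pool.Agent.W353.L1 Pool.Agent.W353.NF Pool.Agent.TH322.BC
open Pool.Agent.W353.TP (HX sysH push push_abs_le qh qh_abs LL LL_tendsto bdd_isLittleO lam0_sub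
  inum E_mono abs_E_le E_norm_sq fsum_isLittleO E_H)
open Pool.Agent.W353.AB (Sy vq gram norm_vq syE tEH)
open Pool.Agent.H341R2 (lam lam_tendsto sysK)

section
variable {K F : Type} [Field K] [NumberField K] [Field F] [NumberField F] [Algebra K F]

theorem chi_ker {D : F} {u : GK K} (hu : act K F u = 1)
    (hu' : ∀ i : F →ₐ[K] AlgebraicClosure K, ∀ s : AlgebraicClosure K, s ^ 2 = i D → u s = s) :
    chi K D u = Module.finrank K F := by
  classical
  unfold chi
  have h1 : (Finset.univ.filter fun i : F →ₐ[K] AlgebraicClosure K => act K F u i = i) =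
      Finset.univ := by
    ext i
    simp [hu]
  have h2 : ∀ i : F →ₐ[K] AlgebraicClosure K, ((sg D u i : ℤˣ) : ℤ) = 1 := by
    intro i
    unfold sg
    rw [if_pos (hu' i)]
    rfl
  rw [h1, Finset.sum_congr rfl fun i _ => h2 i, Finset.sum_const, nsmul_eq_mul, mul_one,
    Finset.card_univ, AlgHom.card K F (AlgebraicClosure K)]

end

theorem lam_div : Tendsto (fun ε : ℝ => lam ε / LL ε) (𝓝[>] 0) (𝓝 1) := by
  have h1 := lam0_sub.tendsto_div_nhds_zero
  have h2 : Tendsto (fun ε : ℝ => (lam ε - LL ε) / LL ε + 1) (𝓝[>] 0) (𝓝 (0 + 1)) :=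
    h1.add tendsto_const_nhds
  rw [zero_add] at h2
  refine h2.congr' ?_
  filter_upwards [LL_tendsto.eventually_gt_atTop 0] with ε hε
  field_simp
  ring

section
variable {K : Type} [Field K] [NumberField K]

open Classical in
/-- the indicator function of a subgroup -/
noncomputable def ind (U : Subgroup (GK K)) (σ : GK K) : ℝ := if σ ∈ U then 1 else 0

theorem avR_ind (U : Subgroup (GK K)) [U.Normal] [Finite (GK K ⧸ U)] :
    avR U (fun q => |ind U q.out|) = (Nat.card (GK K ⧸ U) : ℝ)⁻¹ := by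
  classical
  unfold avR
  have h1 : ∑ᶠ q : GK K ⧸ U, |ind U q.out| = 1 := by
    rw [finsum_eq_single _ (1 : GK K ⧸ U)]
    · unfold ind
      rw [if_pos, abs_one]
      rw [← QuotientGroup.eq_one_iff, QuotientGroup.out_eq']
    · intro q hq
      unfold ind
      rw [if_neg, abs_zero]
      rw [← QuotientGroup.eq_one_iff, QuotientGroup.out_eq']
      exact hq
  rw [h1, mul_one]

theorem cz_zero (v : HeightOneSpectrum (𝓞 K)) : cz 0 v = 1 := by
  unfold cz zz
  simp

theorem ind_mean (U : Subgroup (GK K)) [U.Normal] (hU : IsOpen (U : Set (GK K)))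
    [Finite (GK K ⧸ U)] (σ : HeightOneSpectrum (𝓞 K) → GK K) (hσ : ∀ v, IsFrob v (σ v)) (τ : ℝ) :
    Tendsto (fun ε : ℝ => (EP (nm K) ε fun v => |ind U (σ v) * cz τ v|) / LL ε) (𝓝[>] 0)
      (𝓝 (kap τ * (Nat.card (GK K ⧸ U) : ℝ)⁻¹)) := by
  classical
  have h := real_mean U hU (ind U) (by
      intro g u hu
      unfold ind
      have : g * u ∈ U ↔ g ∈ U := U.mul_mem_cancel_right hu
      simp only [this]) (by
      intro g ρ
      unfold ind
      have : ρ * g * ρ⁻¹ ∈ U ↔ g ∈ U := by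
        constructor
        · intro h
          have h2 := Subgroup.Normal.conj_mem (H := U) inferInstance _ h ρ⁻¹
          have e : ρ⁻¹ * (ρ * g * ρ⁻¹) * ρ⁻¹⁻¹ = g := by group
          rwa [e] at h2
        · intro h
          exact Subgroup.Normal.conj_mem inferInstance _ h ρ
      simp only [this]) (by
      intro g
      unfold ind
      have : g⁻¹ ∈ U ↔ g ∈ U := U.inv_mem_iff
      simp only [this]) σ hσ τ
  rw [avR_ind] at h
  have h2 := h.mul lam_div
  rw [mul_one] at h2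
  refine h2.congr' ?_
  filter_upwards [lam_tendsto.eventually_gt_atTop 0, LL_tendsto.eventually_gt_atTop 0] with ε h3 h4
  field_simp

/-- **The lower bound.** -/
theorem pen_lower (U : Subgroup (GK K)) [U.Normal] (hU : IsOpen (U : Set (GK K)))
    [Finite (GK K ⧸ U)] {κ : Type*} (S : Finset κ) (F : κ → Type) [∀ k, Field (F k)]
    [∀ k, NumberField (F k)] [∀ k, Algebra K (F k)] (D : ∀ k, 𝓞 (F k)) (hD : ∀ k ∈ S, D k ≠ 0)
    (hker : ∀ k ∈ S, ∀ u ∈ U, act K (F k) u = 1 ∧
      ∀ i : F k →ₐ[K] AlgebraicClosure K, ∀ s : AlgebraicClosure K, s ^ 2 = i (D k) → u s = s)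
    (τ : ℝ) (c : κ → ℝ) {lm : ℝ} (hlm : 0 < lm)
    (hs : 0 ≤ kap τ * |∑ k ∈ S, c k * (Module.finrank K (F k) : ℝ)| - 2 * lm) {η : ℝ}
    (hη : 0 < η) :
    ∀ᶠ ε : ℝ in 𝓝[>] 0, ((Nat.card (GK K ⧸ U) : ℝ)⁻¹ *
        (kap τ * |∑ k ∈ S, c k * (Module.finrank K (F k) : ℝ)| - 2 * lm) ^ 2 - η) * LL ε ≤
      (sysH K).E ε (fun x : HX K => pen lm (∑ k ∈ S, c k * rq K (D k) τ x)) := by
  classical
  set n : ℝ := ∑ k ∈ S, c k * (Module.finrank K (F k) : ℝ) with hn
  set s : ℝ := kap τ * |n| - 2 * lm with hs'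
  set g : ℝ := (Nat.card (GK K ⧸ U) : ℝ)⁻¹ with hg
  choose σ hσ using exists_isFrob (F := K)
  have hbad : ∀ k, ∃ T : Finset (HeightOneSpectrum (𝓞 K)), k ∈ S → ∀ x : HX K, vx x ∉ T →
      push K (qh (D k)) x = chi K (D k : F k) (σ (vx x)) := by
    intro k
    by_cases hk : k ∈ S
    · obtain ⟨T, hT⟩ := push_chi K (hD k hk)
      exact ⟨T, fun _ x hx => hT x hx _ (hσ _)⟩
    · exact ⟨∅, fun h => absurd h hk⟩
  choose T hT using hbad
  set S0 := S.biUnion T with hS0
  set C0 : ℝ := 2 * s * |n| with hC0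
  have hC0n : 0 ≤ C0 := by positivity
  set Cb : ℝ := 4 * s * lm + s ^ 2 with hCb
  have hCb0 : 0 ≤ Cb := by positivity
  set G : HeightOneSpectrum (𝓞 K) → ℝ := fun v =>
    (C0 * |ind U (σ v) * cz τ v| + (-Cb) * |ind U (σ v) * cz 0 v|) +
      (-C0) * (if v ∈ S0 then 1 else 0) with hG
  have hind : ∀ (ρ : ℝ) (v : HeightOneSpectrum (𝓞 K)), |ind U (σ v) * cz ρ v| ≤ 1 := by
    intro ρ v
    rw [abs_mul]
    refine mul_le_one₀ ?_ (abs_nonneg _) (abs_cz _ _)
    unfold ind
    split_ifs <;> simp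
  have b1 : ∀ v : HeightOneSpectrum (𝓞 K), abs (C0 * |ind U (σ v) * cz τ v|) ≤ C0 := by
    intro v
    rw [abs_mul, abs_abs, abs_of_nonneg hC0n]
    exact mul_le_of_le_one_right hC0n (hind τ v)
  have b2 : ∀ v : HeightOneSpectrum (𝓞 K), abs ((-Cb) * |ind U (σ v) * cz 0 v|) ≤ Cb := by
    intro v
    rw [abs_mul, abs_abs, abs_neg, abs_of_nonneg hCb0]
    exact mul_le_of_le_one_right hCb0 (hind 0 v)
  have b3 : ∀ v : HeightOneSpectrum (𝓞 K), |(-C0) * (if v ∈ S0 then (1 : ℝ) else 0)| ≤ C0 := by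
    intro v
    rw [abs_mul, abs_neg, abs_of_nonneg hC0n]
    refine mul_le_of_le_one_right hC0n ?_
    split_ifs <;> simp
  have b12 : ∀ v : HeightOneSpectrum (𝓞 K), abs (C0 * |ind U (σ v) * cz τ v| +
      (-Cb) * |ind U (σ v) * cz 0 v|) ≤ C0 + Cb := fun v =>
    (abs_add_le _ _).trans (add_le_add (b1 v) (b2 v))
  have bG : ∀ v, |G v| ≤ (C0 + Cb) + C0 := fun v =>
    (abs_add_le _ _).trans (add_le_add (b12 v) (b3 v))
  -- pointwise
  have hpt : ∀ x : HX K, G (vx x) ≤ pen lm (∑ k ∈ S, c k * rq K (D k) τ x) := by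
    intro x
    rw [hG]
    simp only
    by_cases h1 : vx x ∈ S0
    · rw [if_pos h1, mul_one]
      have h2 := pen_nonneg lm (∑ k ∈ S, c k * rq K (D k) τ x)
      have h3 := (abs_le.1 (b1 (vx x))).2
      have h4 : (-Cb) * |ind U (σ (vx x)) * cz 0 (vx x)| ≤ 0 := by
        have := mul_nonneg hCb0 (abs_nonneg (ind U (σ (vx x)) * cz 0 (vx x)))
        linarith
      linarith
    · rw [if_neg h1, mul_zero, add_zero]
      by_cases h2 : σ (vx x) ∈ U
      · have e1 : ∑ k ∈ S, c k * rq K (D k) τ x = n * cz τ (vx x) := by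
          rw [hn, Finset.sum_mul]
          refine Finset.sum_congr rfl fun k hk => ?_
          have hx : vx x ∉ T k := fun h => h1 (Finset.mem_biUnion.2 ⟨k, hk, h⟩)
          unfold rq
          rw [hT k hk x hx, chi_ker (hker k hk _ h2).1 (hker k hk _ h2).2]
          push_cast
          ring
        have e2 : ind U (σ (vx x)) = 1 := by unfold ind; rw [if_pos h2]
        have h3 := pen_ge (lm := lm) (w := n * cz τ (vx x)) hs
        rw [e1, e2, one_mul, one_mul, cz_zero, abs_one, mul_one]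
        rw [abs_mul] at h3
        refine le_trans (le_of_eq ?_) h3
        rw [hC0, hCb]
        ring
      · have e2 : ind U (σ (vx x)) = 0 := by unfold ind; rw [if_neg h2]
        rw [e2, zero_mul, zero_mul, abs_zero, mul_zero, mul_zero, add_zero]
        exact pen_nonneg _ _
  -- limits
  have hlim : Tendsto (fun ε : ℝ => (C0 * (EP (nm K) ε fun v => |ind U (σ v) * cz τ v|) +
      (-Cb) * (EP (nm K) ε fun v => |ind U (σ v) * cz 0 v|)) / LL ε) (𝓝[>] 0)
      (𝓝 (C0 * (kap τ * g) + (-Cb) * (kap 0 * g))) := by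
    have h1 := (ind_mean U hU σ hσ τ).const_mul C0
    have h2 := (ind_mean U hU σ hσ 0).const_mul (-Cb)
    refine (h1.add h2).congr fun ε => ?_
    ring
  have hk0 : kap 0 = 1 := by unfold kap; rw [if_pos rfl]
  have hval : C0 * (kap τ * g) + (-Cb) * (kap 0 * g) = g * s ^ 2 := by
    rw [hk0, hC0, hCb, hs']
    ring
  rw [hval] at hlim
  -- comparison
  have hEH := fun ε (hε : (0:ℝ) < ε) => E_H bG hε
  set C1 : ℝ := ((C0 + Cb) + C0) * Module.finrank ℚ K * Pool.Agent.H921R2.TatePole.C0 with hC1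
  set C2 : ℝ := S0.card * C0 with hC2
  have hsmall := isLittleO_iff.1 (bdd_isLittleO (u := fun _ => |C1| + |C2|)
    ⟨|(|C1| + |C2|)|, Eventually.of_forall fun _ => le_rfl⟩) (c := η / 2) (by positivity)
  have hlow := hlim.eventually_const_lt (show g * s ^ 2 - η / 2 < g * s ^ 2 by linarith)
  filter_upwards [hlow, hsmall, LL_tendsto.eventually_gt_atTop 0, self_mem_nhdsWithin]
    with ε h1 h2 h3 h4
  have hε : (0 : ℝ) < ε := h4
  rw [lt_div_iff₀ h3] at h1
  rw [Real.norm_eq_abs, Real.norm_eq_abs, abs_of_pos h3, abs_of_nonneg (by positivity)] at h2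
  have e1 : EP (nm K) ε G = (C0 * (EP (nm K) ε fun v => |ind U (σ v) * cz τ v|) +
      (-Cb) * (EP (nm K) ε fun v => |ind U (σ v) * cz 0 v|)) +
      EP (nm K) ε (fun v => (-C0) * (if v ∈ S0 then (1 : ℝ) else 0)) := by
    rw [hG, EP_add normSys hε b12 b3, EP_add normSys hε b1 b2, EP_const_mul, EP_const_mul]
  have e2 : |EP (nm K) ε (fun v => (-C0) * (if v ∈ S0 then (1 : ℝ) else 0))| ≤ C2 :=
    EP_finsupp normSys S0 _ (fun v hv => by rw [if_neg hv, mul_zero]) _ b3 hε
  have e3 := hEH ε hε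
  have e4 : (sysH K).E ε (fun x => G (vx x)) ≤
      (sysH K).E ε (fun x : HX K => pen lm (∑ k ∈ S, c k * rq K (D k) τ x)) := by
    refine E_mono (sysH K) hε (B := (C0 + Cb) + C0)
      (B' := (∑ k ∈ S, |c k| * (Module.finrank ℚ (F k) : ℝ)) ^ 2) (fun x => bG _) (fun x => ?_) hpt
    rw [abs_of_nonneg (pen_nonneg _ _)]
    refine pen_le hlm ?_
    refine (Finset.abs_sum_le_sum_abs _ _).trans (Finset.sum_le_sum fun k _ => ?_)
    rw [abs_mul]
    exact mul_le_mul_of_nonneg_left (abs_rq _ _ x) (abs_nonneg _)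
  have e5 : (sysH K).E ε (fun x => G (vx x)) = (sysH K).E ε (fun x : HX K =>
    G (Pool.Agent.H921R2.TatePole.kerPrime x.1 x.2).1.1) := rfl
  rw [e5] at e4
  rw [← EP_eq, e1] at e3
  have e6 := (abs_le.1 e3).2
  have e7 := (abs_le.1 e2).1
  have e8 := le_abs_self C1
  have e9 := le_abs_self C2
  have e10 : (g * s ^ 2 - η) * LL ε = (g * s ^ 2 - η / 2) * LL ε - η / 2 * LL ε := by ring
  rw [e10]
  linarith

end

end Pool.Agent.Y684.L2
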